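import Mathlib

/-!
# The choice of the parameters
-/

set_option autoImplicit false

namespace Pool.Agent.Lib_helper81.KRT

/-- the density of the rows -/
theorem exists_density (G r D : ℕ) (hG : 2 ≤ G) (hr : 0 < r) (hD : 0 < D) :
    ∃ B, 0 < B ∧ r * D ≤ B ∧ B ≤ 72 * G * r * D + 1 ∧
      1 / 2 - (1 / (G : ℝ)) / 4 ≤
        (((72 * G * r * D : ℕ) : ℝ) / (((72 * G * r * D : ℕ) : ℝ) + 1)) ^ B ∧
      (((72 * G * r * D : ℕ) : ℝ) / (((72 * G * r * D : ℕ) : ℝ) + 1)) ^ (B - r * D) ≤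
        1 / 2 + 1 / (G : ℝ) / 9 / 8 := by
  classical
  obtain ⟨Λ, hΛ⟩ : ∃ Λ, Λ = 72 * G * r * D := ⟨_, rfl⟩
  rw [← hΛ]
  have hrD : 0 < r * D := Nat.mul_pos hr hD
  have hΛ1 : 72 * (G * (r * D)) = Λ := by
    rw [hΛ]
    ring
  have hGrD : G ≤ G * (r * D) := Nat.le_mul_of_pos_right _ hrD
  have hrDG : r * D ≤ G * (r * D) := Nat.le_mul_of_pos_left _ (by omega)
  have hΛ0 : 0 < Λ := by omega
  have hΛr : (0 : ℝ) < Λ := by exact_mod_cast hΛ0
  have hGr : (2 : ℝ) ≤ G := by exact_mod_cast hG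
  obtain ⟨q, hq⟩ : ∃ q : ℝ, q = (Λ : ℝ) / (Λ + 1) := ⟨_, rfl⟩
  rw [← hq]
  have hq' : q = 1 + -(1 / ((Λ : ℝ) + 1)) := by
    rw [hq]
    field_simp
    ring
  have hq0 : 0 < q := by
    rw [hq]
    positivity
  have hinv : 1 / ((Λ : ℝ) + 1) ≤ 1 := by
    rw [div_le_one (by positivity)]
    linarith
  have hbern : ∀ n : ℕ, 1 - n / ((Λ : ℝ) + 1) ≤ q ^ n := by
    intro n
    have h1 := one_add_mul_le_pow (a := -(1 / ((Λ : ℝ) + 1))) (by linarith) n
    rw [← hq'] at h1
    refine le_trans (le_of_eq ?_) h1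
    ring
  have hex : ∃ n : ℕ, q ^ n ≤ 1 / 2 := by
    refine ⟨Λ + 1, ?_⟩
    have h1 : q ≤ Real.exp (-(1 / ((Λ : ℝ) + 1))) := by
      have := Real.add_one_le_exp (-(1 / ((Λ : ℝ) + 1)))
      rw [hq']
      linarith
    calc q ^ (Λ + 1) ≤ Real.exp (-(1 / ((Λ : ℝ) + 1))) ^ (Λ + 1) :=
          pow_le_pow_left₀ hq0.le h1 _
      _ = Real.exp (-1) := by
          rw [← Real.exp_nat_mul]
          congr 1
          push_cast
          field_simp
      _ ≤ 1 / 2 := by
          rw [Real.exp_neg, ← one_div]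
          refine one_div_le_one_div_of_le (by norm_num) ?_
          have := Real.add_one_le_exp (1 : ℝ)
          linarith
  obtain ⟨B, hB1, hB2⟩ : ∃ B : ℕ, q ^ B ≤ 1 / 2 ∧ ∀ n < B, ¬ q ^ n ≤ 1 / 2 :=
    ⟨Nat.find hex, Nat.find_spec hex, fun n hn => Nat.find_min hex hn⟩
  have hB0 : 0 < B := by
    rcases Nat.eq_zero_or_pos B with h | h
    · rw [h, pow_zero] at hB1
      norm_num at hB1
    · exact h
  have hhalf : ((Λ : ℝ) + 1) ≤ 2 * B := by
    have h1 := hbern B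
    have h2 : (1 : ℝ) / 2 ≤ B / ((Λ : ℝ) + 1) := by linarith
    rw [le_div_iff₀ (by positivity)] at h2
    linarith
  have hhalf' : Λ + 1 ≤ 2 * B := by exact_mod_cast hhalf
  have hrDB : r * D ≤ B := by omega
  refine ⟨B, hB0, hrDB, ?_, ?_, ?_⟩
  · by_contra hcon
    refine hB2 (Λ + 1) (not_le.1 hcon) ?_
    have h1 : q ≤ Real.exp (-(1 / ((Λ : ℝ) + 1))) := by
      have := Real.add_one_le_exp (-(1 / ((Λ : ℝ) + 1)))
      rw [hq']
      linarith
    calc q ^ (Λ + 1) ≤ Real.exp (-(1 / ((Λ : ℝ) + 1))) ^ (Λ + 1) :=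
          pow_le_pow_left₀ hq0.le h1 _
      _ = Real.exp (-1) := by
          rw [← Real.exp_nat_mul]
          congr 1
          push_cast
          field_simp
      _ ≤ 1 / 2 := by
          rw [Real.exp_neg, ← one_div]
          refine one_div_le_one_div_of_le (by norm_num) ?_
          have := Real.add_one_le_exp (1 : ℝ)
          linarith
  · have h1 : 1 / 2 < q ^ (B - 1) := not_le.1 (hB2 (B - 1) (by omega))
    have h2 : q ^ B = q ^ (B - 1) * q := by
      rw [← pow_succ]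
      congr 1
      omega
    rw [h2]
    have h3 : 1 / 2 * q ≤ q ^ (B - 1) * q := mul_le_mul_of_nonneg_right h1.le hq0.le
    refine le_trans ?_ h3
    rw [hq']
    have h4 : 1 / ((Λ : ℝ) + 1) ≤ 1 / (2 * G) := by
      refine one_div_le_one_div_of_le (by positivity) ?_
      have h5 : 2 * G ≤ Λ + 1 := by omega
      exact_mod_cast h5
    have h6 : 1 / (G : ℝ) / 4 = 1 / 2 * (1 / (2 * G)) := by
      field_simp
      norm_num
    rw [h6]
    linarith
  · have h1 : q ^ (B - r * D) * q ^ (r * D) = q ^ B := by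
      rw [← pow_add]
      congr 1
      omega
    obtain ⟨z, hz⟩ : ∃ z : ℝ, z = 1 / (72 * G) := ⟨_, rfl⟩
    have hz0 : 0 < z := by
      rw [hz]
      positivity
    have hz1 : z ≤ 1 / 2 := by
      rw [hz]
      refine one_div_le_one_div_of_le (by norm_num) ?_
      linarith
    have h2 : 1 - z ≤ q ^ (r * D) := by
      refine le_trans ?_ (hbern (r * D))
      have h3 : ((r * D : ℕ) : ℝ) / ((Λ : ℝ) + 1) ≤ z := by
        rw [hz, div_le_div_iff₀ (by positivity) (by positivity)]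
        have h4 : (r * D) * (72 * G) ≤ 1 * (Λ + 1) := by
          rw [← hΛ1]
          have : (r * D) * (72 * G) = 72 * (G * (r * D)) := by ring
          omega
        exact_mod_cast h4
      linarith
    have h5 : q ^ (B - r * D) * (1 - z) ≤ 1 / 2 := by
      calc q ^ (B - r * D) * (1 - z) ≤ q ^ (B - r * D) * q ^ (r * D) :=
            mul_le_mul_of_nonneg_left h2 (by positivity)
        _ = q ^ B := h1
        _ ≤ 1 / 2 := hB1
    have h6 : 1 / (G : ℝ) / 9 / 8 = z := by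
      rw [hz]
      field_simp
      norm_num
    rw [h6]
    by_contra hcon
    have h7 := not_le.1 hcon
    have h8 : (1 / 2 + z) * (1 - z) < q ^ (B - r * D) * (1 - z) :=
      mul_lt_mul_of_pos_right h7 (by linarith)
    nlinarith

/-- the final contradiction -/
theorem contra (G m A K : ℕ) (hG : 0 < G) (hm : 0 < m) (hK : K ≤ 2 ^ (A * m)) :
    ¬ (1 / (G : ℝ) / 16 ≤ K * 2 ^ m *
      Real.exp (-(((32 * G * (A + 16 * G + 1) : ℕ) : ℝ) * (1 / (G : ℝ) / 32 * m)))) := by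
  intro h
  have hG' : (0 : ℝ) < G := by exact_mod_cast hG
  have hm' : (1 : ℝ) ≤ m := by exact_mod_cast hm
  have h1 : ((32 * G * (A + 16 * G + 1) : ℕ) : ℝ) * (1 / (G : ℝ) / 32 * m) =
      (A + 16 * G + 1) * m := by
    push_cast
    field_simp
  rw [h1] at h
  have h2 : (2 : ℝ) ≤ Real.exp 1 := by
    have := Real.add_one_le_exp (1 : ℝ)
    linarith
  have h3 : (K : ℝ) ≤ Real.exp (A * m) := by
    calc (K : ℝ) ≤ 2 ^ (A * m) := by exact_mod_cast hK
      _ ≤ Real.exp 1 ^ (A * m) := pow_le_pow_left₀ (by norm_num) h2 _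
      _ = Real.exp (A * m) := by
          rw [← Real.exp_nat_mul]
          push_cast
          rw [mul_one]
  have h4 : (2 : ℝ) ^ m ≤ Real.exp m := by
    calc (2 : ℝ) ^ m ≤ Real.exp 1 ^ m := pow_le_pow_left₀ (by norm_num) h2 _
      _ = Real.exp m := by rw [← Real.exp_nat_mul, mul_one]
  have h5 : (K : ℝ) * 2 ^ m * Real.exp (-((A + 16 * G + 1) * m)) ≤ Real.exp (-(16 * G)) := by
    calc (K : ℝ) * 2 ^ m * Real.exp (-((A + 16 * G + 1) * m))
        ≤ Real.exp (A * m) * Real.exp m * Real.exp (-((A + 16 * G + 1) * m)) :=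
          mul_le_mul_of_nonneg_right (mul_le_mul h3 h4 (by positivity) (Real.exp_pos _).le)
            (Real.exp_pos _).le
      _ = Real.exp (-(16 * G * m)) := by
          rw [← Real.exp_add, ← Real.exp_add]
          congr 1
          ring
      _ ≤ Real.exp (-(16 * G)) := by
          apply Real.exp_le_exp.2
          have : 16 * (G : ℝ) * 1 ≤ 16 * G * m := mul_le_mul_of_nonneg_left hm' (by positivity)
          linarith
  have h6 : Real.exp (-(16 * (G : ℝ))) < 1 / (G : ℝ) / 16 := by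
    rw [Real.exp_neg, div_div, ← one_div]
    refine one_div_lt_one_div_of_lt (by positivity) ?_
    have := Real.add_one_le_exp (16 * (G : ℝ))
    linarith
  linarith

/-- the largest `P` -/
theorem exists_last (f : ℕ → ℕ) (M : ℕ) (h1 : f 1 ≤ M) (h2 : ∃ n, M < f n)
    (h0 : f 0 ≤ M) : ∃ P, 1 ≤ P ∧ f P ≤ M ∧ M < f (P + 1) := by
  classical
  obtain ⟨n, hn1, hn2⟩ : ∃ n, M < f n ∧ ∀ k < n, ¬ M < f k :=
    ⟨Nat.find h2, Nat.find_spec h2, fun k hk => Nat.find_min h2 hk⟩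
  have h3 : n ≠ 0 := by
    rintro rfl
    omega
  have h4 : n ≠ 1 := by
    rintro rfl
    omega
  refine ⟨n - 1, by omega, not_lt.1 (hn2 _ (by omega)), ?_⟩
  have : n - 1 + 1 = n := by omega
  rw [this]
  exact hn1

end Pool.Agent.Lib_helper81.KRT
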