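import Pool.Agent.Lib_helper81.KRT.Inst
import Pool.Agent.Lib_helper81.KRT.Params

/-!
# The bound
-/

set_option autoImplicit false

namespace Pool.Agent.Lib_helper81.KRT

open Finset
open Pool.Agent.Lib_helper81.KSW (Alg Scheme)

/-- the sizes of the parameters -/
theorem sizes {κ G a w T₁ x A₀ y r : ℕ} (hκ : 0 < κ) (hG : 2 ≤ G) (ha : 1 ≤ a) (hT₁ : T₁ ≤ a)
    (hx : x = 64 * (κ + 1) * (w + a) * G) (hA : A₀ = 2 * T₁ * ((κ + 1) * a + w))
    (hy : y = 32 * G * (A₀ + 16 * G + 1)) (hr : r = 1620 * G ^ 2 * (κ * a + y)) :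
    256 ≤ x ∧ w + a ≤ x ∧ 2 * (κ + 1) ≤ x ∧ 288 * G ^ 2 * r ≤ x ^ 8 ∧
      72 * G * r * a + 1 ≤ x ^ 8 ∧ ∀ T, T ≤ a → 16 * (147456 * G ^ 2 * T ^ 3) ≤ x ^ 4 := by
  obtain ⟨l, hl⟩ : ∃ l, l = w + a := ⟨_, rfl⟩
  have hl1 : 1 ≤ l := by omega
  have hal : a ≤ l := by omega
  rw [← hl] at hx ⊢
  -- the basic lower bounds for `x`
  have e1 : 128 * (l * G) ≤ x := by
    calc 128 * (l * G) = 64 * 2 * l * G := by ring
      _ ≤ 64 * (κ + 1) * l * G := by gcongr; omega
      _ = x := hx.symm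
  have e2 : 128 * ((κ + 1) * l) ≤ x := by
    calc 128 * ((κ + 1) * l) = 64 * (κ + 1) * l * 2 := by ring
      _ ≤ 64 * (κ + 1) * l * G := by gcongr
      _ = x := hx.symm
  have e3 : l ≤ l * G := Nat.le_mul_of_pos_right _ (by omega)
  have e4 : G ≤ l * G := Nat.le_mul_of_pos_left _ (by omega)
  have e5 : κ + 1 ≤ (κ + 1) * l := Nat.le_mul_of_pos_right _ (by omega)
  have hx256 : 256 ≤ x := by omega
  have hA2 : A₀ ≤ x * x := by
    calc A₀ = 2 * T₁ * ((κ + 1) * a + w) := hA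
      _ ≤ 2 * l * ((κ + 1) * l) := by
          refine Nat.mul_le_mul (Nat.mul_le_mul_left 2 (by omega)) ?_
          rw [hl, Nat.mul_add]
          have : w ≤ (κ + 1) * w := Nat.le_mul_of_pos_left _ (by omega)
          omega
      _ ≤ x * x := Nat.mul_le_mul (by omega) (by omega)
  have hG32 : 32 * G ≤ x := by omega
  have hy2 : y ≤ x * (x * x + x) := by
    rw [hy]
    refine Nat.mul_le_mul hG32 ?_
    have : 16 * G + 1 ≤ x := by omega
    omega
  have hκa : κ * a ≤ x := by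
    have : κ * a ≤ (κ + 1) * l := Nat.mul_le_mul (by omega) hal
    omega
  have hsum : κ * a + y ≤ x ^ 4 := by
    calc κ * a + y ≤ x + x * (x * x + x) := Nat.add_le_add hκa hy2
      _ ≤ x * x * x + x * (x * x + x * x) := by
          have h1 : x ≤ x * x := Nat.le_mul_of_pos_left _ (by omega)
          have h2 : x * x ≤ x * x * x := Nat.le_mul_of_pos_right _ (by omega)
          have h3 : x * (x * x + x) ≤ x * (x * x + x * x) := Nat.mul_le_mul_left _ (by omega)
          omega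
      _ = 3 * (x * x * x) := by ring
      _ ≤ x * (x * x * x) := Nat.mul_le_mul_right _ (by omega)
      _ = x ^ 4 := by ring
  have hGsq : 1620 * G ^ 2 ≤ x ^ 2 := by
    calc 1620 * G ^ 2 ≤ 4096 * G ^ 2 := Nat.mul_le_mul_right _ (by norm_num)
      _ = (64 * G) ^ 2 := by ring
      _ ≤ x ^ 2 := Nat.pow_le_pow_left (by omega) 2
  have hr6 : r ≤ x ^ 6 := by
    calc r = 1620 * G ^ 2 * (κ * a + y) := hr
      _ ≤ x ^ 2 * x ^ 4 := Nat.mul_le_mul hGsq hsum
      _ = x ^ 6 := by ring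
  refine ⟨hx256, by omega, by omega, ?_, ?_, ?_⟩
  · calc 288 * G ^ 2 * r ≤ 1620 * G ^ 2 * r :=
          Nat.mul_le_mul_right _ (Nat.mul_le_mul_right _ (by norm_num))
      _ ≤ x ^ 2 * x ^ 6 := Nat.mul_le_mul hGsq hr6
      _ = x ^ 8 := by ring
  · have h1 : 72 * (G * a) ≤ x := by
      have : G * a ≤ l * G := by
        rw [Nat.mul_comm G a]
        exact Nat.mul_le_mul_right _ hal
      omega
    calc 72 * G * r * a + 1 = 72 * (G * a) * r + 1 := by ring
      _ ≤ x * x ^ 6 + x * x ^ 6 := by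
          refine Nat.add_le_add (Nat.mul_le_mul h1 hr6) ?_
          exact Nat.mul_pos (by omega) (Nat.pow_pos (by omega))
      _ = 2 * x ^ 7 := by ring
      _ ≤ x * x ^ 7 := Nat.mul_le_mul_right _ (by omega)
      _ = x ^ 8 := by ring
  · intro T hT
    calc 16 * (147456 * G ^ 2 * T ^ 3) = 2359296 * (G ^ 2 * T ^ 3) := by ring
      _ ≤ 268435456 * (G ^ 2 * T ^ 3) := Nat.mul_le_mul_right _ (by norm_num)
      _ ≤ 268435456 * (G ^ 4 * l ^ 4) := by
          refine Nat.mul_le_mul_left _ (Nat.mul_le_mul ?_ ?_)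
          · exact Nat.pow_le_pow_right (by omega) (by norm_num)
          · exact (Nat.pow_le_pow_left (by omega) 3).trans
              (Nat.pow_le_pow_right (by omega) (by norm_num))
      _ = (128 * (l * G)) ^ 4 := by ring
      _ ≤ x ^ 4 := Nat.pow_le_pow_left e1 4

/-- No covering by few families of sets of tests. -/
theorem no_small {κ N S w T m K B Λ r D q G A : ℕ} [Fact q.Prime] (hκ : 0 < κ) (hm : 0 < m)
    (hm2 : m ≤ 2 ^ D) (hmD : m ≤ q ^ D) (hBq : B ≤ q) (hr0 : 0 < r) (hr : r * D ≤ B)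
    (hG : 2 ≤ G) (γ μ : ℝ) (hγ : 1 / (G : ℝ) ≤ γ)
    (hpB : 1 / 2 - (1 / (G : ℝ)) / 4 ≤ ((Λ : ℝ) / (Λ + 1)) ^ B)
    (hp : ((Λ : ℝ) / (Λ + 1)) ^ (B - r * D) ≤ 1 / 2 + 1 / (G : ℝ) / 9 / 8)
    (hrr : r = 1620 * G ^ 2 * (κ * D + 32 * G * (A + 16 * G + 1)))
    (hμ : 18 * G * r ≤ μ) (hN : (κ + 1) * m * (B * q ^ κ) ≤ N) (hB0 : 0 < B)
    (D' : Scheme (κ + 1) N S w T γ)
    (hcov : ∀ a : Fin m → (Fin κ → Fin m) → Alg S w, (∀ i t, (a i t).Within T) →
      Cov a K (1 / (G : ℝ) / 4) μ) : 2 ^ (A * m) < K := by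
  have hG' : (0 : ℝ) < G := by
    have : 0 < G := by omega
    exact_mod_cast this
  have hG2 : (2 : ℝ) ≤ G := by exact_mod_cast hG
  by_contra hcon
  refine contra G m A K (by omega) hm (not_lt.1 hcon) ?_
  refine scheme_ineq (T := T) hκ hm hmD hBq hr0 hr (1 / (G : ℝ)) γ _ μ hγ (by positivity)
    (one_div_le_one_div_of_le (by norm_num) hG2) (by positivity) hpB hp ?_ ?_ hN hB0 D' hcov
  · have h1 : (1 / (G : ℝ) / 9) ^ 2 / 20 * r =
        (κ * D : ℝ) + ((32 * G * (A + 16 * G + 1) : ℕ) : ℝ) := by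
      rw [hrr]
      push_cast
      field_simp
      ring
    rw [h1, Real.log_pow]
    have h2 : Real.log (m : ℝ) ≤ D := by
      have hm' : (0 : ℝ) < m := by exact_mod_cast hm
      calc Real.log (m : ℝ) ≤ Real.log ((2 : ℝ) ^ D) :=
            Real.log_le_log hm' (by exact_mod_cast hm2)
        _ = D * Real.log 2 := Real.log_pow _ _
        _ ≤ D * 1 := by
            refine mul_le_mul_of_nonneg_left ?_ (by positivity)
            linarith [Real.log_two_lt_d9]
        _ = D := mul_one _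
    have h3 : (κ : ℝ) * Real.log m ≤ κ * D := mul_le_mul_of_nonneg_left h2 (by positivity)
    linarith
  · refine le_trans (le_of_eq ?_) hμ
    field_simp
    ring

theorem pow_le_x {x i j : ℕ} (hx : 256 ≤ x) (h : i ≤ j) : x ^ i ≤ x ^ j :=
  Nat.pow_le_pow_right (by omega) h

/-- the bound for the number of rows -/
theorem rows_bound {κ N S w T m B Λ r q a G A x : ℕ} [Fact q.Prime] (hκ : 0 < κ) (hm : 0 < m)
    (hS : 0 < S) (hT : 0 < T) (ha : 0 < a)
    (hm2 : m ≤ 2 ^ a) (hmD : m ≤ q ^ a) (hBq : B ≤ q) (hr0 : 0 < r) (hr : r * a ≤ B)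
    (hG : 2 ≤ G) (γ : ℝ) (hγ : 1 / (G : ℝ) ≤ γ)
    (hpB : 1 / 2 - (1 / (G : ℝ)) / 4 ≤ ((Λ : ℝ) / (Λ + 1)) ^ B)
    (hp : ((Λ : ℝ) / (Λ + 1)) ^ (B - r * a) ≤ 1 / 2 + 1 / (G : ℝ) / 9 / 8)
    (hrr : r = 1620 * G ^ 2 * (κ * a + 32 * G * (A + 16 * G + 1)))
    (hN : (κ + 1) * m * (B * q ^ κ) ≤ N) (hB0 : 0 < B)
    (D' : Scheme (κ + 1) N S w T γ)
    (hA : A = 2 * min T a * ((κ + 1) * a + w)) (hSL : S * 2 ^ w + 1 ≤ 2 ^ ((κ + 1) * a + w))
    (hx256 : 256 ≤ x) (hlx : w + a ≤ x) (hrx : 288 * G ^ 2 * r ≤ x ^ 8)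
    (hκx : ∀ T, T ≤ a → 16 * (147456 * G ^ 2 * T ^ 3) ≤ x ^ 4) :
    m ^ (T + κ) ≤ x ^ ((16 + κ) * T) * S ^ T := by
  classical
  have hG' : (0 : ℝ) < G := by
    have : 0 < G := by omega
    exact_mod_cast this
  have cJ : (Fintype.card (Fin κ → Fin m) : ℝ) = ((m ^ κ : ℕ) : ℝ) := by
    rw [Fintype.card_fun, Fintype.card_fin, Fintype.card_fin]
  have hST : 1 ≤ S ^ T := Nat.pow_pos hS
  have hG2r : 0 < G ^ 2 * r := Nat.mul_pos (Nat.pow_pos (by omega)) hr0
  have hA0 : 0 < A := by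
    rw [hA]
    refine Nat.mul_pos (Nat.mul_pos (by norm_num) (lt_min hT ha)) ?_
    have : 0 < (κ + 1) * a := Nat.mul_pos (by omega) ha
    omega
  -- the whole memory
  have hW : 144 * G ^ 2 * r ≤ m ^ κ → m ≤ w * S := by
    intro hbig
    have h1 := no_small (T := T) (K := (2 ^ w) ^ S)
      (μ := 1 / (G : ℝ) / 4 / 2 * Fintype.card (Fin κ → Fin m)) hκ hm hm2 hmD hBq hr0 hr hG γ
      hγ hpB hp hrr (by
        rw [cJ]
        have h2 : ((144 * G ^ 2 * r : ℕ) : ℝ) ≤ ((m ^ κ : ℕ) : ℝ) := by exact_mod_cast hbig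
        push_cast at h2 ⊢
        have h3 : 1 / (G : ℝ) / 4 / 2 * (m : ℝ) ^ κ = (m : ℝ) ^ κ / (8 * G) := by
          field_simp
          norm_num
        rw [h3, le_div_iff₀ (by positivity)]
        refine le_trans (le_of_eq ?_) h2
        ring) hN hB0 D' (fun a _ => cov_whole a _)
    rw [← pow_mul] at h1
    have h2 : A * m < w * S := (Nat.pow_lt_pow_iff_right (by norm_num)).1 h1
    have h3 : m ≤ A * m := Nat.le_mul_of_pos_left _ hA0
    omega
  by_cases hsm : 144 * G ^ 2 * r ≤ m ^ κ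
  · have hmw := hW hsm
    have hmx : m ≤ x * S := hmw.trans (Nat.mul_le_mul_right _ (by omega))
    by_cases hTa : T ≤ a
    · -- the number of probes is small
      rw [min_eq_left hTa] at hA
      obtain ⟨κ₀, hκ₀⟩ : ∃ κ₀, κ₀ = 147456 * G ^ 2 * T ^ 3 := ⟨_, rfl⟩
      have hκ₀0 : 0 < κ₀ := by
        rw [hκ₀]
        have : 0 < G := by omega
        positivity
      have hκ₀x : 16 * κ₀ ≤ x ^ 4 := by
        rw [hκ₀]
        exact hκx T hTa
      have hlev : ∀ P, 1 ≤ P → 288 * G ^ 2 * r * (4 * κ₀ * P) ^ T ≤ m ^ κ → m * P ≤ 2 * S := by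
        intro P hP hbig
        by_contra hcon
        have hn0 : 2 * S / P < m := by
          rw [Nat.div_lt_iff_lt_mul hP]
          exact not_le.1 hcon
        haveI : NeZero P := ⟨by omega⟩
        have h1 := no_small (T := T) (K := ((S * 2 ^ w + 1) ^ (2 * S / P + m)) ^ T)
          (μ := 1 / (G : ℝ) / 4 / 4 * Fintype.card (Fin κ → Fin m) / (4 * (κ₀ : ℝ) * P) ^ T)
          hκ hm hm2 hmD hBq hr0 hr hG γ hγ hpB hp hrr (by
            rw [cJ]
            have h2 : ((288 * G ^ 2 * r * (4 * κ₀ * P) ^ T : ℕ) : ℝ) ≤ ((m ^ κ : ℕ) : ℝ) := by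
              exact_mod_cast hbig
            have hP' : (0 : ℝ) < P := by exact_mod_cast hP
            have hκ' : (0 : ℝ) < κ₀ := by exact_mod_cast hκ₀0
            push_cast at h2 ⊢
            have h3 : 1 / (G : ℝ) / 4 / 4 * (m : ℝ) ^ κ = (m : ℝ) ^ κ / (16 * G) := by
              field_simp
              norm_num
            rw [h3, div_div, le_div_iff₀ (by positivity)]
            refine le_trans (le_of_eq ?_) h2
            ring) hN hB0 D' (fun a' ha' => cov_levels hS κ₀ P T (2 * S / P) hT hκ₀0 le_rfl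
              (1 / (G : ℝ) / 4) (by positivity) (by
                have h2 : (2 : ℝ) ≤ G := by exact_mod_cast hG
                have h3 : 1 / (G : ℝ) ≤ 1 / 2 := one_div_le_one_div_of_le (by norm_num) h2
                linarith) (by
                rw [Fintype.card_fun, Fintype.card_fin, Fintype.card_fin]
                exact Nat.pow_pos hm) (by
                rw [hκ₀]
                push_cast
                refine le_of_eq ?_
                field_simp
                ring) a' ha')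
        refine absurd h1 (not_lt.2 ?_)
        calc ((S * 2 ^ w + 1) ^ (2 * S / P + m)) ^ T
            ≤ ((2 ^ ((κ + 1) * a + w)) ^ (2 * m)) ^ T := by
              refine Nat.pow_le_pow_left ?_ T
              calc (S * 2 ^ w + 1) ^ (2 * S / P + m)
                  ≤ (2 ^ ((κ + 1) * a + w)) ^ (2 * S / P + m) := Nat.pow_le_pow_left hSL _
                _ ≤ _ := Nat.pow_le_pow_right (Nat.pow_pos (by norm_num)) (by omega)
          _ = 2 ^ (A * m) := by
              rw [← pow_mul, ← pow_mul, hA]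
              congr 1
              ring
      by_cases hbig : 288 * G ^ 2 * r * (4 * κ₀ * 1) ^ T ≤ m ^ κ
      · obtain ⟨P, hP1, hP2, hP3⟩ := exists_last
          (fun P => 288 * G ^ 2 * r * (4 * κ₀ * P) ^ T) (m ^ κ) hbig (by
            refine ⟨m ^ κ + 1, ?_⟩
            show m ^ κ < 288 * G ^ 2 * r * (4 * κ₀ * (m ^ κ + 1)) ^ T
            have h1 : m ^ κ + 1 ≤ (4 * κ₀ * (m ^ κ + 1)) ^ T := by
              calc m ^ κ + 1 ≤ 4 * κ₀ * (m ^ κ + 1) := Nat.le_mul_of_pos_left _ (by omega)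
                _ ≤ (4 * κ₀ * (m ^ κ + 1)) ^ T := Nat.le_self_pow (by omega) _
            have h2 : (4 * κ₀ * (m ^ κ + 1)) ^ T ≤
                288 * G ^ 2 * r * (4 * κ₀ * (m ^ κ + 1)) ^ T := by
              refine Nat.le_mul_of_pos_left _ ?_
              have : 288 * G ^ 2 * r = 288 * (G ^ 2 * r) := by ring
              omega
            omega) (by
            show 288 * G ^ 2 * r * (4 * κ₀ * 0) ^ T ≤ m ^ κ
            rw [Nat.mul_zero, zero_pow (by omega), Nat.mul_zero]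
            exact Nat.zero_le _)
        have hmP := hlev P hP1 hP2
        calc m ^ (T + κ) = m ^ T * m ^ κ := pow_add _ _ _
          _ ≤ m ^ T * (288 * G ^ 2 * r * (4 * κ₀ * (P + 1)) ^ T) :=
              Nat.mul_le_mul_left _ hP3.le
          _ ≤ m ^ T * (288 * G ^ 2 * r * (4 * κ₀ * (2 * P)) ^ T) := by
              refine Nat.mul_le_mul_left _ (Nat.mul_le_mul_left _ (Nat.pow_le_pow_left ?_ T))
              exact Nat.mul_le_mul_left _ (by omega)
          _ = 288 * G ^ 2 * r * (8 * κ₀ * (m * P)) ^ T := by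
              rw [mul_left_comm, ← mul_pow]
              congr 2
              ring
          _ ≤ 288 * G ^ 2 * r * (8 * κ₀ * (2 * S)) ^ T :=
              Nat.mul_le_mul_left _ (Nat.pow_le_pow_left (Nat.mul_le_mul_left _ hmP) T)
          _ = 288 * G ^ 2 * r * ((16 * κ₀) * S) ^ T := by
              congr 2
              ring
          _ ≤ x ^ 8 * ((x ^ 4) * S) ^ T :=
              Nat.mul_le_mul hrx (Nat.pow_le_pow_left (Nat.mul_le_mul_right _ hκ₀x) T)
          _ = x ^ (8 + 4 * T) * S ^ T := by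
              rw [mul_pow, ← pow_mul, ← mul_assoc, ← pow_add]
          _ ≤ x ^ ((16 + κ) * T) * S ^ T := by
              refine Nat.mul_le_mul_right _ (pow_le_x hx256 ?_)
              have : (16 + κ) * T = 16 * T + κ * T := by ring
              omega
      · rw [mul_one] at hbig
        calc m ^ (T + κ) = m ^ T * m ^ κ := pow_add _ _ _
          _ ≤ (x * S) ^ T * (288 * G ^ 2 * r * (4 * κ₀) ^ T) :=
              Nat.mul_le_mul (Nat.pow_le_pow_left hmx T) (not_le.1 hbig).le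
          _ ≤ (x * S) ^ T * (x ^ 8 * (x ^ 4) ^ T) := by
              refine Nat.mul_le_mul_left _ (Nat.mul_le_mul hrx (Nat.pow_le_pow_left ?_ T))
              omega
          _ = x ^ (8 + 5 * T) * S ^ T := by
              rw [mul_pow]
              ring
          _ ≤ x ^ ((16 + κ) * T) * S ^ T := by
              refine Nat.mul_le_mul_right _ (pow_le_x hx256 ?_)
              have : (16 + κ) * T = 16 * T + κ * T := by ring
              omega
    · -- many probes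
      calc m ^ (T + κ) = m ^ T * m ^ κ := pow_add _ _ _
        _ ≤ (x * S) ^ T * x ^ (T * κ) := by
            refine Nat.mul_le_mul (Nat.pow_le_pow_left hmx T) ?_
            calc m ^ κ ≤ (2 ^ a) ^ κ := Nat.pow_le_pow_left hm2 κ
              _ = 2 ^ (a * κ) := (pow_mul _ _ _).symm
              _ ≤ 2 ^ (T * κ) :=
                  Nat.pow_le_pow_right (by norm_num) (Nat.mul_le_mul_right _ (by omega))
              _ ≤ x ^ (T * κ) := Nat.pow_le_pow_left (by omega) _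
        _ = x ^ (T + T * κ) * S ^ T := by
            rw [mul_pow]
            ring
        _ ≤ x ^ ((16 + κ) * T) * S ^ T := by
            refine Nat.mul_le_mul_right _ (pow_le_x hx256 ?_)
            have h1 : (16 + κ) * T = 16 * T + κ * T := by ring
            have h2 : T * κ = κ * T := by ring
            omega
  · -- few rows
    have hsm' := not_le.1 hsm
    have hmκ : m ^ κ ≤ x ^ 8 := by
      have h1 : 288 * G ^ 2 * r = 288 * (G ^ 2 * r) := by ring
      have h2 : 144 * G ^ 2 * r = 144 * (G ^ 2 * r) := by ring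
      omega
    calc m ^ (T + κ) = m ^ T * m ^ κ := pow_add _ _ _
      _ ≤ (x ^ 8) ^ T * x ^ 8 := by
          refine Nat.mul_le_mul (Nat.pow_le_pow_left ?_ T) hmκ
          exact (Nat.le_self_pow (by omega) m).trans hmκ
      _ = x ^ (8 * T + 8) * 1 := by
          ring
      _ ≤ x ^ ((16 + κ) * T) * S ^ T := by
          refine Nat.mul_le_mul (pow_le_x hx256 ?_) hST
          have : (16 + κ) * T = 16 * T + κ * T := by ring
          omega

/-- **The bound.** -/
theorem final_bound {κ N S w T G : ℕ} (hκ : 0 < κ) (hN : 1 ≤ N) (hS : 1 ≤ S) (hT : 1 ≤ T)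
    (hG : 2 ≤ G) (γ : ℝ) (hγ : 1 / (G : ℝ) ≤ γ) (D' : Scheme (κ + 1) N S w T γ) :
    N ^ (T + κ) ≤ (64 * (κ + 1) * (w + Nat.log 2 N + 1) * G) ^ (25 * (κ + 1) ^ 2 * T) * S ^ T := by
  classical
  obtain ⟨a, ha⟩ : ∃ a, a = Nat.log 2 N + 1 := ⟨_, rfl⟩
  have ha1 : 1 ≤ a := by omega
  have hNa : N < 2 ^ a := by
    rw [ha]
    exact Nat.lt_pow_succ_log_self (by norm_num) N
  obtain ⟨x, hx⟩ : ∃ x, x = 64 * (κ + 1) * (w + a) * G := ⟨_, rfl⟩
  have hx' : 64 * (κ + 1) * (w + Nat.log 2 N + 1) * G = x := by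
    rw [hx, ha]
    ring
  rw [hx']
  obtain ⟨A, hA⟩ : ∃ A, A = 2 * min T a * ((κ + 1) * a + w) := ⟨_, rfl⟩
  obtain ⟨y, hy⟩ : ∃ y, y = 32 * G * (A + 16 * G + 1) := ⟨_, rfl⟩
  obtain ⟨r, hr⟩ : ∃ r, r = 1620 * G ^ 2 * (κ * a + y) := ⟨_, rfl⟩
  obtain ⟨hx256, hlx, hkx, hrx, hΛx, hκx⟩ := sizes hκ hG ha1 (min_le_right T a) hx hA hy hr
  have hTκ : T + κ ≤ (κ + 1) * T := by
    have h1 : (κ + 1) * T = κ * T + T := by ring
    have h2 : κ ≤ κ * T := Nat.le_mul_of_pos_right _ hT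
    omega
  have hNT : N ^ (T + κ) ≤ N ^ ((κ + 1) * T) := Nat.pow_le_pow_right hN hTκ
  by_cases hSN : N ^ (κ + 1) ≤ S
  · calc N ^ (T + κ) ≤ N ^ ((κ + 1) * T) := hNT
      _ = (N ^ (κ + 1)) ^ T := pow_mul _ _ _
      _ ≤ S ^ T := Nat.pow_le_pow_left hSN T
      _ ≤ x ^ (25 * (κ + 1) ^ 2 * T) * S ^ T :=
          Nat.le_mul_of_pos_left _ (Nat.pow_pos (by omega))
  · have hSN' := not_le.1 hSN
    have hr0 : 0 < r := by
      rw [hr]
      refine Nat.mul_pos (Nat.mul_pos (by norm_num) (Nat.pow_pos (by omega))) ?_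
      have : 0 < κ * a := Nat.mul_pos hκ ha1
      omega
    obtain ⟨B, hB0, hrB, hBΛ, hpB, hp⟩ := exists_density G r a hG hr0 ha1
    obtain ⟨q, hq, hBq, hqB⟩ := Nat.exists_prime_lt_and_le_two_mul B (by omega)
    haveI : Fact q.Prime := ⟨hq⟩
    have hBx : B ≤ x ^ 8 := hBΛ.trans hΛx
    have hqx : q ≤ x ^ 9 := by
      calc q ≤ 2 * B := hqB
        _ ≤ x * x ^ 8 := Nat.mul_le_mul (by omega) hBx
        _ = x ^ 9 := by ring
    obtain ⟨Q, hQ⟩ : ∃ Q, Q = (κ + 1) * (B * q ^ κ) := ⟨_, rfl⟩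
    have hQ0 : 0 < Q := by
      rw [hQ]
      exact Nat.mul_pos (by omega) (Nat.mul_pos hB0 (Nat.pow_pos hq.pos))
    have hQx : 2 * Q ≤ x ^ (9 * (κ + 1)) := by
      calc 2 * Q = 2 * (κ + 1) * (B * q ^ κ) := by rw [hQ]; ring
        _ ≤ x * (x ^ 8 * (x ^ 9) ^ κ) :=
            Nat.mul_le_mul hkx (Nat.mul_le_mul hBx (Nat.pow_le_pow_left hqx κ))
        _ = x ^ (9 * (κ + 1)) := by ring
    have hexp : 9 * (κ + 1) * ((κ + 1) * T) + (16 + κ) * T ≤ 25 * (κ + 1) ^ 2 * T := by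
      have h1 : 9 * (κ + 1) * ((κ + 1) * T) + (16 + κ) * T = (9 * (κ + 1) ^ 2 + 16 + κ) * T := by
        ring
      rw [h1]
      refine Nat.mul_le_mul_right _ ?_
      nlinarith
    have hQT : (2 * Q) ^ ((κ + 1) * T) ≤ x ^ (9 * (κ + 1) * ((κ + 1) * T)) := by
      calc (2 * Q) ^ ((κ + 1) * T) ≤ (x ^ (9 * (κ + 1))) ^ ((κ + 1) * T) :=
            Nat.pow_le_pow_left hQx _
        _ = _ := (pow_mul _ _ _).symm
    rcases Nat.eq_zero_or_pos (N / Q) with hm | hm
    · have hNQ : N < Q := (Nat.div_eq_zero_iff_lt hQ0).1 hm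
      calc N ^ (T + κ) ≤ N ^ ((κ + 1) * T) := hNT
        _ ≤ (2 * Q) ^ ((κ + 1) * T) := Nat.pow_le_pow_left (by omega) _
        _ ≤ x ^ (9 * (κ + 1) * ((κ + 1) * T)) := hQT
        _ ≤ x ^ (25 * (κ + 1) ^ 2 * T) := pow_le_x hx256 (by omega)
        _ ≤ x ^ (25 * (κ + 1) ^ 2 * T) * S ^ T :=
            Nat.le_mul_of_pos_right _ (Nat.pow_pos hS)
    · have hQm : Q * (N / Q) ≤ N := Nat.mul_div_le N Q
      have hmN : N / Q ≤ N := Nat.div_le_self _ _
      have hm2 : N / Q ≤ 2 ^ a := by omega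
      have hN2 : N ≤ 2 * Q * (N / Q) := by
        have h1 : N < Q * (N / Q + 1) := Nat.lt_mul_div_succ N hQ0
        have h2 : Q * (N / Q + 1) = Q * (N / Q) + Q := by ring
        have h3 : Q ≤ Q * (N / Q) := Nat.le_mul_of_pos_right _ hm
        have h4 : 2 * Q * (N / Q) = 2 * (Q * (N / Q)) := by ring
        omega
      have hSL : S * 2 ^ w + 1 ≤ 2 ^ ((κ + 1) * a + w) := by
        have h1 : 1 ≤ 2 ^ w := Nat.one_le_two_pow
        calc S * 2 ^ w + 1 ≤ (S + 1) * 2 ^ w := by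
              rw [Nat.add_mul, one_mul]
              omega
          _ ≤ N ^ (κ + 1) * 2 ^ w := Nat.mul_le_mul_right _ hSN'
          _ ≤ (2 ^ a) ^ (κ + 1) * 2 ^ w :=
              Nat.mul_le_mul_right _ (Nat.pow_le_pow_left hNa.le _)
          _ = 2 ^ ((κ + 1) * a + w) := by
              rw [← pow_mul, ← pow_add]
              congr 1
              ring
      have h1 := rows_bound (T := T) (x := x) hκ hm hS hT ha1 hm2
        (hm2.trans (Nat.pow_le_pow_left hq.two_le a)) hBq.le hr0 hrB hG γ hγ hpB hp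
        (by rw [hr, hy]) (by
          have : (κ + 1) * (N / Q) * (B * q ^ κ) = Q * (N / Q) := by
            rw [hQ]
            ring
          rw [this]
          exact hQm) hB0 D' hA hSL hx256 hlx hrx hκx
      calc N ^ (T + κ) ≤ (2 * Q * (N / Q)) ^ (T + κ) := Nat.pow_le_pow_left hN2 _
        _ = (2 * Q) ^ (T + κ) * (N / Q) ^ (T + κ) := mul_pow _ _ _
        _ ≤ (2 * Q) ^ ((κ + 1) * T) * (x ^ ((16 + κ) * T) * S ^ T) :=
            Nat.mul_le_mul (Nat.pow_le_pow_right (by omega) hTκ) h1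
        _ ≤ x ^ (9 * (κ + 1) * ((κ + 1) * T)) * (x ^ ((16 + κ) * T) * S ^ T) :=
            Nat.mul_le_mul_right _ hQT
        _ = x ^ (9 * (κ + 1) * ((κ + 1) * T) + (16 + κ) * T) * S ^ T := by
            rw [← mul_assoc, ← pow_add]
        _ ≤ x ^ (25 * (κ + 1) ^ 2 * T) * S ^ T :=
            Nat.mul_le_mul_right _ (pow_le_x hx256 hexp)

end Pool.Agent.Lib_helper81.KRT
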