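import Mathlib

/-!
# Random rows against almost disjoint tests
-/

set_option autoImplicit false

namespace Pool.Agent.Lib_helper81.KRT

open Finset

section Row

variable {U J : Type} [Fintype U] [DecidableEq U] [DecidableEq J]

/-- the functions without the value `0` on `W` -/
theorem count_avoid (Λ : ℕ) (W : Finset U) :
    (((univ : Finset (U → Fin (Λ + 1))).filter fun x => ∀ e ∈ W, x e ≠ 0).card : ℝ) =
      ((Λ : ℝ) / (Λ + 1)) ^ W.card * ((Λ : ℝ) + 1) ^ Fintype.card U := by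
  have h1 : ((univ : Finset (U → Fin (Λ + 1))).filter fun x => ∀ e ∈ W, x e ≠ 0) =
      Fintype.piFinset fun e => if e ∈ W then univ.erase (0 : Fin (Λ + 1)) else univ := by
    ext x
    rw [mem_filter, Fintype.mem_piFinset]
    constructor
    · rintro ⟨-, h⟩ e
      by_cases he : e ∈ W
      · rw [if_pos he]
        exact mem_erase.2 ⟨h e he, mem_univ _⟩
      · rw [if_neg he]
        exact mem_univ _
    · intro h
      refine ⟨mem_univ _, fun e he => ?_⟩
      have h2 := h e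
      rw [if_pos he] at h2
      exact (mem_erase.1 h2).1
  rw [h1, Fintype.card_piFinset]
  push_cast
  have h2 : ∀ e, (((if e ∈ W then univ.erase (0 : Fin (Λ + 1)) else univ).card : ℕ) : ℝ) =
      (if e ∈ W then (Λ : ℝ) / (Λ + 1) else 1) * ((Λ : ℝ) + 1) := by
    intro e
    have h3 : (Λ : ℝ) + 1 ≠ 0 := by positivity
    split_ifs
    · rw [card_erase_of_mem (mem_univ _), card_univ, Fintype.card_fin, Nat.add_sub_cancel,
        div_mul_cancel₀ _ h3]
    · rw [card_univ, Fintype.card_fin, one_mul]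
      push_cast
      ring
  rw [prod_congr rfl fun e _ => h2 e, prod_mul_distrib, prod_const, card_univ]
  congr 1
  rw [prod_ite_mem, univ_inter, prod_const]

variable (Y : J → Finset U) (B Δ : ℕ)

/-- almost disjoint sets have a large union -/
theorem union_card (hB : ∀ t, (Y t).card = B) (hΔ : ∀ t t', t ≠ t' → (Y t ∩ Y t').card ≤ Δ)
    (r : ℕ) (V : Finset J) (hV : V.card ≤ r) :
    V.card * B ≤ (V.biUnion Y).card + V.card * (r * Δ) := by
  induction V using Finset.induction_on with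
  | empty => simp
  | insert t V ht ih =>
    rw [card_insert_of_notMem ht] at hV ⊢
    have h1 := ih (by omega)
    rw [biUnion_insert]
    have h2 := card_union_add_card_inter (Y t) (V.biUnion Y)
    have h3 : (Y t ∩ V.biUnion Y).card ≤ r * Δ := by
      rw [inter_biUnion]
      refine card_biUnion_le.trans ?_
      calc ∑ t' ∈ V, (Y t ∩ Y t').card ≤ ∑ _t' ∈ V, Δ :=
            sum_le_sum fun t' ht' => hΔ t t' fun h => ht (h ▸ ht')
        _ = V.card * Δ := by rw [sum_const, smul_eq_mul]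
        _ ≤ r * Δ := Nat.mul_le_mul_right _ (by omega)
    rw [hB t] at h2
    rw [add_mul, add_mul, one_mul, one_mul]
    omega

/-- the exponential moment -/
theorem moment (hB : ∀ t, (Y t).card = B) (hΔ : ∀ t t', t ≠ t' → (Y t ∩ Y t').card ≤ Δ)
    (Λ r : ℕ) (hr : r * Δ ≤ B) (p c : ℝ) (hc : 0 ≤ c)
    (hp : ((Λ : ℝ) / (Λ + 1)) ^ (B - r * Δ) ≤ p) (V : Finset J) (hV : V.card ≤ r) :
    ∑ x : U → Fin (Λ + 1), ∏ t ∈ V, (1 + c * if ∀ e ∈ Y t, x e ≠ 0 then (1 : ℝ) else 0) ≤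
      (1 + c * p) ^ V.card * ((Λ : ℝ) + 1) ^ Fintype.card U := by
  have hq0 : (0 : ℝ) ≤ (Λ : ℝ) / (Λ + 1) := by positivity
  have hq1 : (Λ : ℝ) / (Λ + 1) ≤ 1 := by
    rw [div_le_one (by positivity)]
    linarith
  have hp0 : 0 ≤ p := (pow_nonneg hq0 _).trans hp
  have h1 : ∀ x : U → Fin (Λ + 1),
      ∏ t ∈ V, (1 + c * if ∀ e ∈ Y t, x e ≠ 0 then (1 : ℝ) else 0) =
      ∑ W ∈ V.powerset, c ^ W.card * if ∀ e ∈ W.biUnion Y, x e ≠ 0 then (1 : ℝ) else 0 := by
    intro x
    rw [prod_one_add]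
    refine sum_congr rfl fun W _ => ?_
    rw [prod_mul_distrib, prod_const]
    congr 1
    by_cases h : ∀ e ∈ W.biUnion Y, x e ≠ 0
    · rw [if_pos h]
      refine prod_eq_one fun t ht => if_pos fun e he => h e (mem_biUnion.2 ⟨t, ht, he⟩)
    · rw [if_neg h]
      push Not at h
      obtain ⟨e, he, hxe⟩ := h
      obtain ⟨t, ht, hte⟩ := mem_biUnion.1 he
      exact prod_eq_zero ht (if_neg fun h' => h' e hte hxe)
  simp only [h1]
  rw [sum_comm]
  have h2 : ∀ W ∈ V.powerset, ∑ x : U → Fin (Λ + 1),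
      c ^ W.card * (if ∀ e ∈ W.biUnion Y, x e ≠ 0 then (1 : ℝ) else 0) ≤
      (∏ _t ∈ W, c * p) * ((Λ : ℝ) + 1) ^ Fintype.card U := by
    intro W hW
    rw [← mul_sum, sum_boole, count_avoid Λ (W.biUnion Y), prod_const, mul_pow, mul_assoc]
    refine mul_le_mul_of_nonneg_left ?_ (by positivity)
    refine mul_le_mul_of_nonneg_right ?_ (by positivity)
    have hW' : W.card ≤ r := (card_le_card (mem_powerset.1 hW)).trans hV
    have h3 := union_card Y B Δ hB hΔ r W hW'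
    have h4 : (B - r * Δ) * W.card ≤ (W.biUnion Y).card := by
      rw [Nat.sub_mul, mul_comm B, mul_comm (r * Δ)]
      omega
    calc ((Λ : ℝ) / (Λ + 1)) ^ (W.biUnion Y).card
        ≤ ((Λ : ℝ) / (Λ + 1)) ^ ((B - r * Δ) * W.card) :=
          pow_le_pow_of_le_one hq0 hq1 h4
      _ = (((Λ : ℝ) / (Λ + 1)) ^ (B - r * Δ)) ^ W.card := pow_mul _ _ _
      _ ≤ p ^ W.card := pow_le_pow_left₀ (pow_nonneg hq0 _) hp _
  refine (sum_le_sum h2).trans ?_
  rw [← sum_mul, ← prod_one_add, prod_const]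

/-- the number of the tests of `D` passed by `x` -/
def okc (Λ : ℕ) (x : U → Fin (Λ + 1)) (D : Finset J) : ℕ :=
  (D.filter fun t => ∀ e ∈ Y t, x e ≠ 0).card

/-- a block of `r` tests -/
theorem block (hB : ∀ t, (Y t).card = B) (hΔ : ∀ t t', t ≠ t' → (Y t ∩ Y t').card ≤ Δ)
    (Λ r : ℕ) (hr : r * Δ ≤ B) (γ : ℝ) (hγ0 : 0 < γ) (hγ1 : γ ≤ 1)
    (hp : ((Λ : ℝ) / (Λ + 1)) ^ (B - r * Δ) ≤ 1 / 2 + γ / 8) (V : Finset J) (hV : V.card = r) :
    (((univ : Finset (U → Fin (Λ + 1))).filter fun x =>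
      (1 / 2 + γ / 2) * r ≤ (okc Y Λ x V : ℝ)).card : ℝ) ≤
      Real.exp (-(γ ^ 2 / 20 * r)) * ((Λ : ℝ) + 1) ^ Fintype.card U := by
  set β : ℝ := γ / 4 with hβ
  have hβ0 : 0 < β := by positivity
  have hβ1 : β ≤ 1 := by linarith
  set c : ℝ := Real.exp β - 1 with hc
  have hc0 : 0 ≤ c := by
    have := Real.add_one_le_exp β
    linarith
  have hc1 : c ≤ β + β ^ 2 := by
    have h1 := Real.abs_exp_sub_one_sub_id_le (x := β) (by rw [abs_of_pos hβ0]; exact hβ1)
    have h2 := (abs_le.1 h1).2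
    linarith
  have h1 := moment Y B Δ hB hΔ Λ r hr (1 / 2 + γ / 8) c hc0 hp V hV.le
  have h2 : ∀ x : U → Fin (Λ + 1),
      ∏ t ∈ V, (1 + c * if ∀ e ∈ Y t, x e ≠ 0 then (1 : ℝ) else 0) =
        Real.exp (β * okc Y Λ x V) := by
    intro x
    have h3 : ∀ t ∈ V, (1 + c * if ∀ e ∈ Y t, x e ≠ 0 then (1 : ℝ) else 0) =
        if ∀ e ∈ Y t, x e ≠ 0 then Real.exp β else 1 := by
      intro t _
      split_ifs
      · rw [hc]
        ring
      · ring
    rw [prod_congr rfl h3, prod_ite, prod_const, prod_const_one, mul_one, okc, ← Real.exp_nat_mul,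
      mul_comm]
  simp only [h2] at h1
  set X₁ : ℝ := ((Λ : ℝ) + 1) ^ Fintype.card U with hX₁
  have hX₁0 : 0 ≤ X₁ := by positivity
  set F := (univ : Finset (U → Fin (Λ + 1))).filter fun x =>
      (1 / 2 + γ / 2) * r ≤ (okc Y Λ x V : ℝ) with hF
  have h3 : (F.card : ℝ) * Real.exp (β * ((1 / 2 + γ / 2) * r)) ≤
      ∑ x : U → Fin (Λ + 1), Real.exp (β * okc Y Λ x V) := by
    rw [← nsmul_eq_mul, ← sum_const]
    refine (sum_le_sum fun x hx => ?_).trans
      (sum_le_sum_of_subset_of_nonneg (subset_univ F) fun _ _ _ => (Real.exp_pos _).le)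
    exact Real.exp_le_exp.2 (mul_le_mul_of_nonneg_left (mem_filter.1 hx).2 hβ0.le)
  have h4 : (1 + c * (1 / 2 + γ / 8)) ^ V.card ≤ Real.exp (c * (1 / 2 + γ / 8) * r) := by
    rw [hV, mul_comm _ (r : ℝ), Real.exp_nat_mul]
    refine pow_le_pow_left₀ (by positivity) ?_ r
    have := Real.add_one_le_exp (c * (1 / 2 + γ / 8))
    linarith
  have h5 : (F.card : ℝ) * Real.exp (β * ((1 / 2 + γ / 2) * r)) ≤
      Real.exp (c * (1 / 2 + γ / 8) * r) * X₁ :=
    (h3.trans h1).trans (mul_le_mul_of_nonneg_right h4 hX₁0)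
  have h6 : c * (1 / 2 + γ / 8) * r ≤ β * ((1 / 2 + γ / 2) * r) + -(γ ^ 2 / 20 * r) := by
    have h7 : c * (1 / 2 + γ / 8) ≤ β * (1 / 2 + γ / 2) - γ ^ 2 / 20 := by
      have h8 : c * (1 / 2 + γ / 8) ≤ (β + β ^ 2) * (1 / 2 + γ / 8) :=
        mul_le_mul_of_nonneg_right hc1 (by positivity)
      refine h8.trans ?_
      rw [hβ]
      have h9 : γ ^ 3 ≤ γ ^ 2 := by
        calc γ ^ 3 = γ ^ 2 * γ := by ring
          _ ≤ γ ^ 2 * 1 := mul_le_mul_of_nonneg_left hγ1 (by positivity)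
          _ = _ := by ring
      nlinarith [sq_nonneg γ]
    have hr0 : (0 : ℝ) ≤ r := Nat.cast_nonneg r
    calc c * (1 / 2 + γ / 8) * r ≤ (β * (1 / 2 + γ / 2) - γ ^ 2 / 20) * r :=
          mul_le_mul_of_nonneg_right h7 hr0
      _ = _ := by ring
  have h7 : Real.exp (c * (1 / 2 + γ / 8) * r) ≤
      Real.exp (β * ((1 / 2 + γ / 2) * r)) * Real.exp (-(γ ^ 2 / 20 * r)) := by
    rw [← Real.exp_add]
    exact Real.exp_le_exp.2 h6
  have h8 : (F.card : ℝ) * Real.exp (β * ((1 / 2 + γ / 2) * r)) ≤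
      Real.exp (-(γ ^ 2 / 20 * r)) * X₁ * Real.exp (β * ((1 / 2 + γ / 2) * r)) := by
    calc (F.card : ℝ) * Real.exp (β * ((1 / 2 + γ / 2) * r))
        ≤ Real.exp (c * (1 / 2 + γ / 8) * r) * X₁ := h5
      _ ≤ Real.exp (β * ((1 / 2 + γ / 2) * r)) * Real.exp (-(γ ^ 2 / 20 * r)) * X₁ :=
          mul_le_mul_of_nonneg_right h7 hX₁0
      _ = _ := by ring
  exact le_of_mul_le_mul_right h8 (Real.exp_pos _)

/-- large sets of tests -/
theorem manyTests (hB : ∀ t, (Y t).card = B) (hΔ : ∀ t t', t ≠ t' → (Y t ∩ Y t').card ≤ Δ)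
    (Λ r : ℕ) (hr0 : 0 < r) (hr : r * Δ ≤ B) (γ : ℝ) (hγ0 : 0 < γ) (hγ1 : γ ≤ 1)
    (hp : ((Λ : ℝ) / (Λ + 1)) ^ (B - r * Δ) ≤ 1 / 2 + γ / 8) (n : ℕ) :
    ∀ D : Finset J, D.card ≤ n →
    (((univ : Finset (U → Fin (Λ + 1))).filter fun x =>
      (1 / 2 + γ / 2) * D.card + r ≤ (okc Y Λ x D : ℝ)).card : ℝ) ≤
      n * (Real.exp (-(γ ^ 2 / 20 * r)) * ((Λ : ℝ) + 1) ^ Fintype.card U) := by
  have hr' : (0 : ℝ) < r := by exact_mod_cast hr0
  have hok : ∀ (D : Finset J) x, (okc Y Λ x D : ℝ) ≤ D.card := fun D x => by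
    exact_mod_cast card_filter_le _ _
  set ρ : ℝ := Real.exp (-(γ ^ 2 / 20 * r)) * ((Λ : ℝ) + 1) ^ Fintype.card U with hρ
  have hρ0 : 0 ≤ ρ := by positivity
  have hsmall : ∀ D : Finset J, D.card < r →
      ((univ : Finset (U → Fin (Λ + 1))).filter fun x =>
      (1 / 2 + γ / 2) * D.card + r ≤ (okc Y Λ x D : ℝ)).card = 0 := by
    intro D hD
    rw [card_eq_zero, filter_eq_empty_iff]
    intro x _ hx
    have h1 := hok D x
    have h2 : (D.card : ℝ) < r := by exact_mod_cast hD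
    have h3 : (0 : ℝ) ≤ (1 / 2 + γ / 2) * D.card := by positivity
    linarith
  induction n with
  | zero =>
    intro D hD
    rw [hsmall D (by omega)]
    simp
  | succ n ih =>
    intro D hD
    rcases lt_or_ge D.card r with h | h
    · rw [hsmall D h]
      push_cast
      positivity
    · obtain ⟨D₁, hD₁, hc₁⟩ := exists_subset_card_eq h
      have hc₂ : (D \ D₁).card + r = D.card := by
        rw [card_sdiff_of_subset hD₁, hc₁]
        omega
      have h1 := ih (D \ D₁) (by omega)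
      have h2 := block Y B Δ hB hΔ Λ r hr γ hγ0 hγ1 hp D₁ hc₁
      have h3 : ((univ : Finset (U → Fin (Λ + 1))).filter fun x =>
          (1 / 2 + γ / 2) * D.card + r ≤ (okc Y Λ x D : ℝ)) ⊆
          ((univ : Finset (U → Fin (Λ + 1))).filter fun x =>
            (1 / 2 + γ / 2) * r ≤ (okc Y Λ x D₁ : ℝ)) ∪
          ((univ : Finset (U → Fin (Λ + 1))).filter fun x =>
            (1 / 2 + γ / 2) * (D \ D₁).card + r ≤ (okc Y Λ x (D \ D₁) : ℝ)) := by
        intro x hx
        rw [mem_filter] at hx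
        rw [mem_union, mem_filter, mem_filter]
        by_contra hcon
        push Not at hcon
        have h4 := hcon.1 (mem_univ _)
        have h5 := hcon.2 (mem_univ _)
        have h6 : okc Y Λ x D = okc Y Λ x D₁ + okc Y Λ x (D \ D₁) := by
          unfold okc
          rw [← card_union_of_disjoint (disjoint_filter_filter disjoint_sdiff), ← filter_union,
            union_sdiff_of_subset hD₁]
        have h7 : (okc Y Λ x D : ℝ) = okc Y Λ x D₁ + okc Y Λ x (D \ D₁) := by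
          exact_mod_cast h6
        have h8 : ((D \ D₁).card : ℝ) + r = D.card := by exact_mod_cast hc₂
        have h9 := hx.2
        rw [h7, ← h8, mul_add] at h9
        linarith
      have h4 : (((univ : Finset (U → Fin (Λ + 1))).filter fun x =>
          (1 / 2 + γ / 2) * D.card + r ≤ (okc Y Λ x D : ℝ)).card : ℝ) ≤
          (((univ : Finset (U → Fin (Λ + 1))).filter fun x =>
            (1 / 2 + γ / 2) * r ≤ (okc Y Λ x D₁ : ℝ)).card : ℝ) +
          (((univ : Finset (U → Fin (Λ + 1))).filter fun x =>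
            (1 / 2 + γ / 2) * (D \ D₁).card + r ≤ (okc Y Λ x (D \ D₁) : ℝ)).card : ℝ) := by
        exact_mod_cast (card_le_card h3).trans (card_union_le _ _)
      push_cast
      linarith

end Row

/-! ### many rows -/

/-- independent rows -/
theorem rows_count {X₁ : Type} [Fintype X₁] [DecidableEq X₁] {m : ℕ} (E : Fin m → Finset X₁)
    (ρ : ℝ) (hE : ∀ i, ((E i).card : ℝ) ≤ ρ * Fintype.card X₁) (I' : Finset (Fin m)) :
    (((univ : Finset (Fin m → X₁)).filter fun x => ∀ i ∈ I', x i ∈ E i).card : ℝ) ≤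
      ρ ^ I'.card * (Fintype.card X₁ : ℝ) ^ m := by
  have h1 : ((univ : Finset (Fin m → X₁)).filter fun x => ∀ i ∈ I', x i ∈ E i) =
      Fintype.piFinset fun i => if i ∈ I' then E i else univ := by
    ext x
    rw [mem_filter, Fintype.mem_piFinset]
    constructor
    · rintro ⟨-, h⟩ e
      by_cases he : e ∈ I'
      · rw [if_pos he]
        exact h e he
      · rw [if_neg he]
        exact mem_univ _
    · intro h
      refine ⟨mem_univ _, fun e he => ?_⟩
      have h2 := h e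
      rwa [if_pos he] at h2
  rw [h1, Fintype.card_piFinset]
  push_cast
  calc ∏ i, (((if i ∈ I' then E i else univ).card : ℕ) : ℝ)
      ≤ ∏ i : Fin m, ((if i ∈ I' then ρ else 1) * (Fintype.card X₁ : ℝ)) := by
        refine prod_le_prod (fun _ _ => Nat.cast_nonneg _) fun i _ => ?_
        split_ifs
        · exact hE i
        · rw [card_univ, one_mul]
    _ = _ := by
        rw [prod_mul_distrib, prod_const, card_univ, Fintype.card_fin, prod_ite_mem, univ_inter,
          prod_const]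

/-- the union bound over the certificates -/
theorem union_bound {X₁ J : Type} [Fintype X₁] [DecidableEq X₁] {m : ℕ}
    (E : Finset J → Finset X₁) (y m₀ : ℝ) (hy : 0 ≤ y)
    (hE : ∀ D, ((E D).card : ℝ) ≤ Real.exp (-y) * Fintype.card X₁)
    (𝓕 : Finset (Fin m → Finset J)) (Good : Finset (Fin m → X₁))
    (hG : ∀ x ∈ Good, ∃ D ∈ 𝓕, ∃ I' : Finset (Fin m), m₀ ≤ I'.card ∧
      ∀ i ∈ I', x i ∈ E (D i)) :
    (Good.card : ℝ) ≤ 𝓕.card * 2 ^ m * Real.exp (-(y * m₀)) * (Fintype.card X₁ : ℝ) ^ m := by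
  classical
  have h1 : Good ⊆ (𝓕 ×ˢ ((univ : Finset (Finset (Fin m))).filter fun I' =>
      m₀ ≤ I'.card)).biUnion fun p =>
        (univ : Finset (Fin m → X₁)).filter fun x => ∀ i ∈ p.2, x i ∈ E (p.1 i) := by
    intro x hx
    obtain ⟨D, hD, I', hI', h⟩ := hG x hx
    exact mem_biUnion.2 ⟨(D, I'), mem_product.2 ⟨hD, mem_filter.2 ⟨mem_univ _, hI'⟩⟩,
      mem_filter.2 ⟨mem_univ _, h⟩⟩
  have h2 : ∀ p ∈ 𝓕 ×ˢ ((univ : Finset (Finset (Fin m))).filter fun I' => m₀ ≤ I'.card),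
      (((univ : Finset (Fin m → X₁)).filter fun x => ∀ i ∈ p.2, x i ∈ E (p.1 i)).card : ℝ) ≤
        Real.exp (-(y * m₀)) * (Fintype.card X₁ : ℝ) ^ m := by
    intro p hp
    rw [mem_product, mem_filter] at hp
    refine (rows_count (fun i => E (p.1 i)) (Real.exp (-y)) (fun i => hE _) p.2).trans ?_
    refine mul_le_mul_of_nonneg_right ?_ (by positivity)
    rw [← Real.exp_nat_mul]
    refine Real.exp_le_exp.2 ?_
    have := mul_le_mul_of_nonneg_left hp.2.2 hy
    linarith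
  calc (Good.card : ℝ) ≤ ∑ p ∈ 𝓕 ×ˢ ((univ : Finset (Finset (Fin m))).filter fun I' =>
        m₀ ≤ I'.card),
        (((univ : Finset (Fin m → X₁)).filter fun x => ∀ i ∈ p.2, x i ∈ E (p.1 i)).card : ℝ) := by
        exact_mod_cast (card_le_card h1).trans card_biUnion_le
    _ ≤ ∑ _p ∈ 𝓕 ×ˢ ((univ : Finset (Finset (Fin m))).filter fun I' => m₀ ≤ I'.card),
        Real.exp (-(y * m₀)) * (Fintype.card X₁ : ℝ) ^ m := sum_le_sum h2
    _ = ((𝓕 ×ˢ ((univ : Finset (Finset (Fin m))).filter fun I' => m₀ ≤ I'.card)).card : ℝ) *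
        (Real.exp (-(y * m₀)) * (Fintype.card X₁ : ℝ) ^ m) := by
        rw [sum_const, nsmul_eq_mul]
    _ ≤ (𝓕.card * 2 ^ m) * (Real.exp (-(y * m₀)) * (Fintype.card X₁ : ℝ) ^ m) := by
        refine mul_le_mul_of_nonneg_right ?_ (by positivity)
        have h3 : (𝓕 ×ˢ ((univ : Finset (Finset (Fin m))).filter fun I' =>
            m₀ ≤ I'.card)).card ≤ 𝓕.card * 2 ^ m := by
          rw [card_product]
          refine Nat.mul_le_mul_left _ ((card_filter_le _ _).trans ?_)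
          rw [card_univ, Fintype.card_finset, Fintype.card_fin]
        exact_mod_cast h3
    _ = _ := by ring

end Pool.Agent.Lib_helper81.KRT
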