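import Pool.Agent.Lib_helper81.KRT.Levels
import Pool.Agent.Lib_helper81.KRT.Row

/-!
# The counting argument
-/

set_option autoImplicit false

namespace Pool.Agent.Lib_helper81.KRT

open Finset
open Pool.Agent.Lib_helper81.KSW (Alg)

/-- The answers are covered by `K` families of sets of tests. -/
def Cov {J : Type} [Fintype J] {S w m : ℕ} (a : Fin m → J → Alg S w) (K : ℕ) (η μ : ℝ) : Prop :=
  ∃ 𝓕 : Finset (Fin m → Finset J), 𝓕.card ≤ K ∧
    ∀ (M : Fin S → Fin (2 ^ w)) (s : Fin m → J → ℝ), (∀ i t, |s i t| ≤ 2) →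
      (∀ i t, (a i t).run M = false → s i t = 0) →
      ∀ I : Finset (Fin m), (∀ i ∈ I, η / 2 * Fintype.card J ≤ ∑ t, s i t) →
      ∃ D ∈ 𝓕, ∃ I' ⊆ I, 2 * (I \ I').card ≤ I.card ∧ ∀ i ∈ I',
        (∀ t ∈ D i, (a i t).run M = true) ∧ μ ≤ ∑ t ∈ D i, s i t

open Classical in
theorem cov_whole {J : Type} [Fintype J] {S w m : ℕ} (a : Fin m → J → Alg S w) (η : ℝ) :
    Cov a ((2 ^ w) ^ S) η (η / 2 * Fintype.card J) := by
  refine ⟨univ.image fun M : Fin S → Fin (2 ^ w) => fun i =>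
    univ.filter fun t => (a i t).run M = true, ?_, ?_⟩
  · refine card_image_le.trans (le_of_eq ?_)
    rw [card_univ, Fintype.card_fun, Fintype.card_fin, Fintype.card_fin]
  · intro M s _ hrun I hI
    refine ⟨_, mem_image.2 ⟨M, mem_univ _, rfl⟩, I, Subset.rfl, by simp, fun i hi => ⟨?_, ?_⟩⟩
    · intro t ht
      exact (mem_filter.1 ht).2
    · refine (hI i hi).trans (le_of_eq ?_)
      rw [sum_filter]
      refine sum_congr rfl fun t _ => ?_
      by_cases h : (a i t).run M = true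
      · rw [if_pos h]
      · rw [if_neg h]
        exact hrun i t (by simpa using h)

theorem cov_levels {J : Type} [Fintype J] {S w m : ℕ} (hS : 0 < S) (κ P T n₀ : ℕ) [NeZero P]
    (hT : 0 < T) (hκ0 : 0 < κ) (hn₀ : 2 * S / P ≤ n₀) (η : ℝ) (hη : 0 < η) (hη1 : η ≤ 1)
    (hJ : 0 < Fintype.card J)
    (hκ : 9216 * (T : ℝ) ^ 3 ≤ κ * η ^ 2) (a : Fin m → J → Alg S w)
    (ha : ∀ i t, (a i t).Within T) :
    Cov a (((S * 2 ^ w + 1) ^ (n₀ + m)) ^ T) η
      (η / 4 * Fintype.card J / (4 * κ * P) ^ T) := by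
  classical
  have hT' : (0 : ℝ) < T := by exact_mod_cast hT
  have hJ' : (0 : ℝ) < Fintype.card J := by exact_mod_cast hJ
  obtain ⟨𝓕, h1, h2⟩ := levels (J := J) hS ⟨0, hS⟩ κ P T n₀ hT hκ0 hn₀ (η / (4 * T))
    (by positivity) (by
      have : (T : ℝ) * (η / (4 * T)) = η / 4 := by field_simp
      rw [this]
      linarith) (by
      have h1 : (κ : ℝ) * (η / (4 * T)) ^ 2 = κ * η ^ 2 / (16 * T ^ 2) := by
        field_simp
        ring
      rw [h1, le_div_iff₀ (by positivity)]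
      calc 576 * (T : ℝ) * (16 * T ^ 2) = 9216 * T ^ 3 := by ring
        _ ≤ _ := hκ) T le_rfl a (fun _ => univ) ha
  refine ⟨𝓕, h1, fun M s hs hrun I hI => ?_⟩
  obtain ⟨D, hD, I', hI', hc, hrow⟩ := h2 M s hs I (η / 4 * Fintype.card J) (by positivity)
    (fun i _ t _ => hrun i t) (by
      intro i hi
      have h3 := hI i hi
      have h4 : ∑ t : J, (s i t - (T : ℝ) * (η / (4 * T))) = ∑ t, s i t - η / 4 * Fintype.card J := by
        rw [sum_sub_distrib, sum_const, card_univ, nsmul_eq_mul]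
        field_simp
      rw [h4]
      linarith)
  refine ⟨D, hD, I', hI', ?_, fun i hi => ⟨fun t ht => ((hrow i hi).1 t ht).2, (hrow i hi).2⟩⟩
  have h5 : T * (2 * (I \ I').card) ≤ T * I.card := by
    calc T * (2 * (I \ I').card) = 2 * T * (I \ I').card := by ring
      _ ≤ _ := hc
  exact Nat.le_of_mul_le_mul_left h5 hT

section

variable {U J : Type} [Fintype U] [DecidableEq U] [Fintype J] [DecidableEq J]

open Classical in
/-- the potential of an answer -/
noncomputable def pot (g : ℝ) (ans : Bool) (disj : Prop) : ℝ :=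
  if ans = true then (if disj then 1 else -(1 + g / 2)) else 0

omit [Fintype U] [DecidableEq U] [Fintype J] [DecidableEq J] in
theorem pot_abs (g : ℝ) (hg0 : 0 < g) (hg1 : g ≤ 1 / 2) (ans : Bool) (disj : Prop) :
    |pot g ans disj| ≤ 2 := by
  unfold pot
  split_ifs
  · norm_num
  · rw [abs_neg, abs_of_pos (by linarith)]
    linarith
  · norm_num

theorem pot_false (g : ℝ) (ans : Bool) (disj : Prop) (h : ans = false) : pot g ans disj = 0 := by
  unfold pot
  rw [if_neg (by simp [h])]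

theorem pot_le (g : ℝ) (hg0 : 0 < g) (ans : Bool) (disj : Prop) : pot g ans disj ≤ 1 := by
  unfold pot
  split_ifs
  · norm_num
  · linarith
  · norm_num

theorem pot_ge (g : ℝ) (hg0 : 0 < g) (ans : Bool) (disj : Prop) [Decidable disj] :
    (if (ans = true ↔ disj) then (1 : ℝ) else 0) - (if disj then 0 else 1) - g / 2 ≤
      pot g ans disj := by
  unfold pot
  cases ans
  · by_cases h : disj
    · simp [h]
      linarith
    · simp [h]
      linarith
  · by_cases h : disj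
    · simp [h]
      linarith
    · simp [h]
      linarith

/-- Good coins: the average potential is large. -/
theorem coins {X₁ : Type} [Fintype X₁] [DecidableEq X₁] {m Rn S w : ℕ} (hRn : 0 < Rn)
    (g : ℝ) (hg0 : 0 < g) (dis : J → X₁ → Prop) [∀ t x, Decidable (dis t x)]
    (hd : ∀ t, (((univ : Finset X₁).filter fun x => ¬ dis t x).card : ℝ) ≤
      (1 / 2 + g / 4) * Fintype.card X₁)
    (mem : Fin Rn → (Fin m → X₁) → Fin S → Fin (2 ^ w)) (alg : Fin Rn → Fin m → J → Alg S w)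
    (hcorr : ∀ x i t, (1 / 2 + g) * Rn ≤ ((univ.filter fun ρ =>
      ((alg ρ i t).run (mem ρ x) = true ↔ dis t (x i))).card : ℝ)) :
    ∃ ρ, g / 4 * ((Fintype.card X₁ : ℝ) ^ m * (m * Fintype.card J)) ≤
      ∑ x : Fin m → X₁, ∑ i, ∑ t, pot g ((alg ρ i t).run (mem ρ x)) (dis t (x i)) := by
  have hRn' : (0 : ℝ) < Rn := by exact_mod_cast hRn
  by_contra hcon
  push Not at hcon
  have : Nonempty (Fin Rn) := ⟨⟨0, hRn⟩⟩
  have h1 := sum_lt_sum_of_nonempty (univ_nonempty (α := Fin Rn)) fun ρ _ => hcon ρ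
  rw [sum_const, card_univ, Fintype.card_fin, nsmul_eq_mul] at h1
  refine absurd h1 (not_lt.2 ?_)
  have h2 : ∑ ρ, ∑ x : Fin m → X₁, ∑ i, ∑ t, pot g ((alg ρ i t).run (mem ρ x)) (dis t (x i)) =
      ∑ i, ∑ t, ∑ x : Fin m → X₁, ∑ ρ, pot g ((alg ρ i t).run (mem ρ x)) (dis t (x i)) := by
    rw [sum_comm]
    simp_rw [sum_comm (s := (univ : Finset (Fin Rn)))]
    rw [sum_comm]
    refine sum_congr rfl fun i _ => ?_
    rw [sum_comm]
  rw [h2]
  have h3 : ∀ i t, g / 4 * (Fintype.card X₁ : ℝ) ^ m * Rn ≤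
      ∑ x : Fin m → X₁, ∑ ρ, pot g ((alg ρ i t).run (mem ρ x)) (dis t (x i)) := by
    intro i t
    have h4 : ∀ x : Fin m → X₁, (1 / 2 + g / 2) * Rn - Rn * (if dis t (x i) then (0 : ℝ) else 1) ≤
        ∑ ρ, pot g ((alg ρ i t).run (mem ρ x)) (dis t (x i)) := by
      intro x
      have h5 := sum_le_sum fun (ρ : Fin Rn) (_ : ρ ∈ univ) =>
        pot_ge g hg0 ((alg ρ i t).run (mem ρ x)) (dis t (x i))
      refine le_trans ?_ h5
      rw [sum_sub_distrib, sum_sub_distrib, sum_boole, sum_const, sum_const, card_univ,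
        Fintype.card_fin, nsmul_eq_mul, nsmul_eq_mul]
      have h6 := hcorr x i t
      linarith
    refine le_trans ?_ (sum_le_sum fun x _ => h4 x)
    rw [sum_sub_distrib, sum_const, card_univ, Fintype.card_fun, Fintype.card_fin, nsmul_eq_mul,
      ← mul_sum]
    have h7 : ∑ x : Fin m → X₁, (if dis t (x i) then (0 : ℝ) else 1) =
        (((univ : Finset (Fin m → X₁)).filter fun x => ∀ i' ∈ ({i} : Finset (Fin m)), x i' ∈
          (univ : Finset X₁).filter fun x => ¬ dis t x).card : ℝ) := by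
      have h8 : ∀ x : Fin m → X₁, (if dis t (x i) then (0 : ℝ) else 1) =
          if (∀ i' ∈ ({i} : Finset (Fin m)), x i' ∈
            (univ : Finset X₁).filter fun x => ¬ dis t x) then 1 else 0 := by
        intro x
        simp only [mem_singleton, forall_eq, mem_filter, mem_univ, true_and]
        split_ifs <;> rfl
      simp only [h8]
      rw [sum_boole]
    rw [h7]
    have h9 := rows_count (m := m) (fun _ => (univ : Finset X₁).filter fun x => ¬ dis t x)
      (1 / 2 + g / 4) (fun _ => hd t) {i}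
    rw [card_singleton, pow_one] at h9
    have h10 := mul_le_mul_of_nonneg_left h9 hRn'.le
    push_cast
    linarith
  calc (Rn : ℝ) * (g / 4 * ((Fintype.card X₁ : ℝ) ^ m * (m * Fintype.card J)))
      = ∑ _i : Fin m, ∑ _t : J, g / 4 * (Fintype.card X₁ : ℝ) ^ m * Rn := by
        rw [sum_const, sum_const, card_univ, card_univ, Fintype.card_fin, nsmul_eq_mul,
          nsmul_eq_mul]
        ring
    _ ≤ _ := sum_le_sum fun i _ => sum_le_sum fun t _ => h3 i t

open Classical in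
/-- Many instances have many good rows. -/
theorem good_rows {X : Type} [Fintype X] {m : ℕ} (hm : 0 < m) (η Jc : ℝ)
    (hJc : 0 < Jc) (f : X → Fin m → ℝ) (hf : ∀ x i, f x i ≤ Jc)
    (h : η * (Fintype.card X * (m * Jc)) ≤ ∑ x, ∑ i, f x i) :
    η / 4 * Fintype.card X ≤ ((univ.filter fun x => η / 4 * m ≤
      ((univ.filter fun i => η / 2 * Jc ≤ f x i).card : ℝ)).card : ℝ) := by
  have hm' : (0 : ℝ) < m := by exact_mod_cast hm
  set a : X → ℝ := fun x => ((univ.filter fun i => η / 2 * Jc ≤ f x i).card : ℝ) with ha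
  have ha1 : ∀ x, a x ≤ m := by
    intro x
    have h1 : (univ.filter fun i => η / 2 * Jc ≤ f x i).card ≤ m := by
      refine (card_filter_le _ _).trans (le_of_eq ?_)
      rw [card_univ, Fintype.card_fin]
    simp only [ha]
    exact_mod_cast h1
  have h1 : ∀ x, ∑ i, f x i ≤ a x * Jc + (m - a x) * (η / 2 * Jc) := by
    intro x
    rw [← sum_filter_add_sum_filter_not univ (fun i => η / 2 * Jc ≤ f x i)]
    refine add_le_add ?_ ?_
    · calc ∑ i ∈ univ.filter (fun i => η / 2 * Jc ≤ f x i), f x i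
          ≤ ∑ _i ∈ univ.filter (fun i => η / 2 * Jc ≤ f x i), Jc := sum_le_sum fun i _ => hf x i
        _ = _ := by rw [sum_const, nsmul_eq_mul]
    · have h2 : (((univ.filter fun i => ¬ η / 2 * Jc ≤ f x i).card : ℕ) : ℝ) = m - a x := by
        have h3 := card_filter_add_card_filter_not (s := (univ : Finset (Fin m)))
          (fun i => η / 2 * Jc ≤ f x i)
        rw [card_univ, Fintype.card_fin] at h3
        have h4 : a x + (((univ.filter fun i => ¬ η / 2 * Jc ≤ f x i).card : ℕ) : ℝ) = m := by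
          simp only [ha]
          exact_mod_cast h3
        linarith
      calc ∑ i ∈ univ.filter (fun i => ¬ η / 2 * Jc ≤ f x i), f x i
          ≤ ∑ _i ∈ univ.filter (fun i => ¬ η / 2 * Jc ≤ f x i), η / 2 * Jc :=
            sum_le_sum fun i hi => (not_le.1 (mem_filter.1 hi).2).le
        _ = _ := by rw [sum_const, nsmul_eq_mul, h2]
  by_cases hη : η ≤ 0
  · refine le_trans ?_ (Nat.cast_nonneg _)
    exact mul_nonpos_of_nonpos_of_nonneg (by linarith) (Nat.cast_nonneg _)
  rw [not_le] at hη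
  have h2 : ∀ x, ∑ i, f x i ≤ a x * Jc + m * (η / 2 * Jc) := by
    intro x
    have h3 : (0 : ℝ) ≤ a x * (η / 2 * Jc) := by
      have : 0 ≤ a x := Nat.cast_nonneg _
      positivity
    linarith [h1 x]
  set Gd := univ.filter fun x => η / 4 * m ≤ a x with hGd
  have h3 : ∀ x, a x ≤ (if x ∈ Gd then (m : ℝ) else 0) + η / 4 * m := by
    intro x
    by_cases hx : x ∈ Gd
    · rw [if_pos hx]
      have : 0 ≤ η / 4 * m := by positivity
      linarith [ha1 x]
    · rw [if_neg hx, zero_add]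
      rw [hGd, mem_filter, not_and] at hx
      exact (not_le.1 (hx (mem_univ _))).le
  have h4 : ∑ x, a x ≤ Gd.card * m + Fintype.card X * (η / 4 * m) := by
    refine (sum_le_sum fun x _ => h3 x).trans (le_of_eq ?_)
    rw [sum_add_distrib, sum_ite_mem, univ_inter, sum_const, sum_const, card_univ, nsmul_eq_mul,
      nsmul_eq_mul]
  have h5 : ∑ x, ∑ i, f x i ≤ (∑ x, a x) * Jc + Fintype.card X * (m * (η / 2 * Jc)) := by
    refine (sum_le_sum fun x _ => h2 x).trans (le_of_eq ?_)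
    rw [sum_add_distrib, ← sum_mul, sum_const, card_univ, nsmul_eq_mul]
  have h6 : η * (Fintype.card X * (m * Jc)) ≤
      (Gd.card * m + Fintype.card X * (η / 4 * m)) * Jc +
        Fintype.card X * (m * (η / 2 * Jc)) := by
    have := mul_le_mul_of_nonneg_right h4 hJc.le
    linarith
  have h7 : η / 4 * Fintype.card X * (m * Jc) ≤ Gd.card * (m * Jc) := by
    nlinarith
  exact le_of_mul_le_mul_right h7 (by positivity)

/-- The main inequality. -/
theorem main_ineq {S w m Rn : ℕ} (Y : J → Finset U) (B Δ Λ r K : ℕ)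
    (hB : ∀ t, (Y t).card = B) (hΔ : ∀ t t', t ≠ t' → (Y t ∩ Y t').card ≤ Δ)
    (hm : 0 < m) (hJ : 0 < Fintype.card J) (hRn : 0 < Rn) (hr0 : 0 < r) (hr : r * Δ ≤ B)
    (g y μ : ℝ) (hg0 : 0 < g) (hg1 : g ≤ 1 / 2) (hy : 0 ≤ y)
    (hpB : 1 / 2 - g / 4 ≤ ((Λ : ℝ) / (Λ + 1)) ^ B)
    (hp : ((Λ : ℝ) / (Λ + 1)) ^ (B - r * Δ) ≤ 1 / 2 + g / 9 / 8)
    (hyr : y + Real.log (Fintype.card J) ≤ (g / 9) ^ 2 / 20 * r) (hμ : 2 * r / (g / 9) ≤ μ)
    (mem : Fin Rn → (Fin m → U → Fin (Λ + 1)) → Fin S → Fin (2 ^ w))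
    (alg : Fin Rn → Fin m → J → Alg S w) (hcov : ∀ ρ, Cov (alg ρ) K (g / 4) μ)
    (hcorr : ∀ x i t, (1 / 2 + g) * Rn ≤ ((univ.filter fun ρ =>
      ((alg ρ i t).run (mem ρ x) = true ↔ ∀ e ∈ Y t, x i e ≠ 0)).card : ℝ)) :
    g / 16 ≤ K * 2 ^ m * Real.exp (-(y * (g / 32 * m))) := by
  classical
  have hJ' : (0 : ℝ) < Fintype.card J := by exact_mod_cast hJ
  have hr0' : (0 : ℝ) < r := by exact_mod_cast hr0
  have cX : (Fintype.card (U → Fin (Λ + 1)) : ℝ) = ((Λ : ℝ) + 1) ^ Fintype.card U := by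
    rw [Fintype.card_fun, Fintype.card_fin]
    push_cast
    rfl
  have hX₁ : (0 : ℝ) < Fintype.card (U → Fin (Λ + 1)) := by
    rw [cX]
    positivity
  have hd : ∀ t, (((univ : Finset (U → Fin (Λ + 1))).filter fun x =>
      ¬ ∀ e ∈ Y t, x e ≠ 0).card : ℝ) ≤ (1 / 2 + g / 4) * Fintype.card (U → Fin (Λ + 1)) := by
    intro t
    have h1 := card_filter_add_card_filter_not (s := (univ : Finset (U → Fin (Λ + 1))))
      (fun x => ∀ e ∈ Y t, x e ≠ 0)
    have h2 := count_avoid Λ (Y t)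
    rw [hB t, ← cX] at h2
    have h3 : (((univ : Finset (U → Fin (Λ + 1))).filter fun x =>
        ∀ e ∈ Y t, x e ≠ 0).card : ℝ) + (((univ : Finset (U → Fin (Λ + 1))).filter fun x =>
        ¬ ∀ e ∈ Y t, x e ≠ 0).card : ℝ) = Fintype.card (U → Fin (Λ + 1)) := by
      rw [← card_univ]
      exact_mod_cast h1
    have h4 := mul_le_mul_of_nonneg_right hpB hX₁.le
    linarith
  obtain ⟨ρ, hρ⟩ := coins hRn g hg0 (fun t (x : U → Fin (Λ + 1)) => ∀ e ∈ Y t, x e ≠ 0) hd mem
    alg hcorr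
  obtain ⟨𝓕, h𝓕1, h𝓕2⟩ := hcov ρ
  set s : (Fin m → U → Fin (Λ + 1)) → Fin m → J → ℝ := fun x i t =>
    pot g ((alg ρ i t).run (mem ρ x)) (∀ e ∈ Y t, x i e ≠ 0) with hs
  have hgr := good_rows hm (g / 4) (Fintype.card J) hJ' (fun x i => ∑ t, s x i t) (by
    intro x i
    calc ∑ t, s x i t ≤ ∑ _t : J, (1 : ℝ) := sum_le_sum fun t _ => pot_le g hg0 _ _
      _ = _ := by simp) (by
    refine le_trans (le_of_eq ?_) hρ
    rw [Fintype.card_fun (α := Fin m), Fintype.card_fin]
    push_cast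
    ring)
  set Gd := univ.filter fun x : Fin m → U → Fin (Λ + 1) => g / 4 / 4 * m ≤
      ((univ.filter fun i => g / 4 / 2 * (Fintype.card J : ℝ) ≤ ∑ t, s x i t).card : ℝ) with hGd
  have hγ0 : (0 : ℝ) < g / 9 := by positivity
  have hE : ∀ D : Finset J, (((univ : Finset (U → Fin (Λ + 1))).filter fun x =>
      (1 / 2 + g / 9 / 2) * D.card + r ≤ (okc Y Λ x D : ℝ)).card : ℝ) ≤
      Real.exp (-y) * Fintype.card (U → Fin (Λ + 1)) := by
    intro D
    refine (manyTests Y B Δ hB hΔ Λ r hr0 hr (g / 9) hγ0 (by linarith) hp (Fintype.card J) D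
      (card_le_univ D)).trans ?_
    rw [← cX, ← mul_assoc]
    refine mul_le_mul_of_nonneg_right ?_ hX₁.le
    calc (Fintype.card J : ℝ) * Real.exp (-((g / 9) ^ 2 / 20 * r))
        = Real.exp (Real.log (Fintype.card J)) * Real.exp (-((g / 9) ^ 2 / 20 * r)) := by
          rw [Real.exp_log hJ']
      _ = Real.exp (Real.log (Fintype.card J) + -((g / 9) ^ 2 / 20 * r)) :=
          (Real.exp_add _ _).symm
      _ ≤ Real.exp (-y) := Real.exp_le_exp.2 (by linarith)
  have hub := union_bound (fun D : Finset J => (univ : Finset (U → Fin (Λ + 1))).filter fun x =>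
      (1 / 2 + g / 9 / 2) * D.card + r ≤ (okc Y Λ x D : ℝ)) y (g / 32 * m) hy hE 𝓕 Gd (by
    intro x hx
    rw [hGd, mem_filter] at hx
    obtain ⟨D, hD, I', hI', hc, hrow⟩ := h𝓕2 (mem ρ x) (s x) (fun i t => pot_abs g hg0 hg1 _ _)
      (fun i t hf => pot_false g _ _ hf)
      (univ.filter fun i => g / 4 / 2 * (Fintype.card J : ℝ) ≤ ∑ t, s x i t)
      (fun i hi => (mem_filter.1 hi).2)
    refine ⟨D, hD, I', ?_, ?_⟩
    · have h1 := card_sdiff_add_card_eq_card hI'
      have h2 : (univ.filter fun i => g / 4 / 2 * (Fintype.card J : ℝ) ≤ ∑ t, s x i t).card ≤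
          2 * I'.card := by omega
      have h3 : ((univ.filter fun i => g / 4 / 2 * (Fintype.card J : ℝ) ≤
          ∑ t, s x i t).card : ℝ) ≤ 2 * I'.card := by exact_mod_cast h2
      linarith [hx.2]
    · intro i hi
      rw [mem_filter]
      refine ⟨mem_univ _, ?_⟩
      obtain ⟨h1, h2⟩ := hrow i hi
      set ok : ℝ := (okc Y Λ (x i) (D i) : ℝ) with hok
      have h3 : ∑ t ∈ D i, s x i t = ok - (1 + g / 2) * ((D i).card - ok) := by
        have h4 : ∀ t ∈ D i, s x i t = (if ∀ e ∈ Y t, x i e ≠ 0 then (2 + g / 2 : ℝ) else 0) -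
            (1 + g / 2) := by
          intro t ht
          change pot g ((alg ρ i t).run (mem ρ x)) _ = _
          rw [h1 t ht]
          unfold pot
          rw [if_pos rfl]
          split_ifs <;> ring
        rw [sum_congr rfl h4, sum_sub_distrib, sum_const, nsmul_eq_mul, ← sum_filter, sum_const,
          nsmul_eq_mul]
        rw [hok]
        unfold okc
        ring
      rw [h3] at h2
      have h4 : ok ≤ (D i).card := by
        rw [hok]
        exact_mod_cast card_filter_le _ _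
      have h5 : 0 ≤ ((D i).card : ℝ) - ok := by linarith
      have h6 : 2 * r / (g / 9) ≤ ok - (1 + g / 2) * ((D i).card - ok) := hμ.trans h2
      have h7 : 0 ≤ (1 + g / 2) * (((D i).card : ℝ) - ok) := mul_nonneg (by linarith) h5
      have h8 : 2 * r / (g / 9) ≤ (D i).card := by linarith
      rw [div_le_iff₀ hγ0] at h8
      have h9 : 0 ≤ 2 * (r : ℝ) / (g / 9) := by positivity
      have h10 : (1 + g / 2) * (D i).card ≤ (2 + g / 2) * ok := by linarith
      have h11 : (1 / 2 + g / 9) * (2 + g / 2) * (D i).card ≤ (2 + g / 2) * ok := by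
        refine le_trans (mul_le_mul_of_nonneg_right ?_ (Nat.cast_nonneg _)) h10
        nlinarith
      have h12 : (1 / 2 + g / 9) * (D i).card ≤ ok := by
        have h13 : (2 + g / 2) * ((1 / 2 + g / 9) * (D i).card) ≤ (2 + g / 2) * ok := by
          linarith
        exact le_of_mul_le_mul_left h13 (by linarith)
      linarith)
  have h1 : g / 4 / 4 * Fintype.card (Fin m → U → Fin (Λ + 1)) ≤
      𝓕.card * 2 ^ m * Real.exp (-(y * (g / 32 * m))) *
        (Fintype.card (U → Fin (Λ + 1)) : ℝ) ^ m := hgr.trans hub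
  rw [Fintype.card_fun (α := Fin m), Fintype.card_fin] at h1
  push_cast at h1
  have h2 : (0 : ℝ) < (Fintype.card (U → Fin (Λ + 1)) : ℝ) ^ m := by positivity
  have h3 := le_of_mul_le_mul_right h1 h2
  calc g / 16 = g / 4 / 4 := by ring
    _ ≤ _ := h3
    _ ≤ _ := by
        refine mul_le_mul_of_nonneg_right ?_ (Real.exp_pos _).le
        refine mul_le_mul_of_nonneg_right ?_ (by positivity)
        exact_mod_cast h𝓕1

end

end Pool.Agent.Lib_helper81.KRT
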