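import Pool.Agent.Lib_helper64.KSD.Family
import Pool.Agent.Lib_helper81.KRT.Main

/-!
# The instances
-/

set_option autoImplicit false

namespace Pool.Agent.Lib_helper81.KRT

open Finset
open Pool.Agent.Lib_helper81.KSW (Alg Scheme)
open Pool.Agent.Lib_helper64.KSD (exists_rs fam fam_idx sum_fam)

section

variable {κ m B q : ℕ} [Fact q.Prime]

/-- the tests -/
def tst (c : Fin m → ZMod q → ZMod q) (em : Fin B → ZMod q) (j : Fin κ → Fin m) :
    Finset (Fin B × (Fin κ → ZMod q)) :=
  univ.filter fun p => ∀ l, p.2 l = c (j l) (em p.1)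

theorem tst_card (c : Fin m → ZMod q → ZMod q) (em : Fin B → ZMod q) (j : Fin κ → Fin m) :
    (tst c em j).card = B := by
  have h : tst c em j = univ.image fun e : Fin B =>
      ((e, fun l => c (j l) (em e)) : Fin B × (Fin κ → ZMod q)) := by
    ext p
    unfold tst
    rw [mem_filter, mem_image]
    constructor
    · rintro ⟨-, hp⟩
      exact ⟨p.1, mem_univ _, Prod.ext rfl (funext fun l => (hp l).symm)⟩
    · rintro ⟨e, -, rfl⟩
      exact ⟨mem_univ _, fun l => rfl⟩
  rw [h, card_image_of_injective _ fun e e' hee => (Prod.ext_iff.1 hee).1, card_univ,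
    Fintype.card_fin]

theorem tst_inter (c : Fin m → ZMod q → ZMod q) (em : Fin B → ZMod q)
    (hem : Function.Injective em) (D : ℕ)
    (hc : ∀ u u', u ≠ u' → (univ.filter fun e => c u e = c u' e).card ≤ D)
    (j j' : Fin κ → Fin m) (hjj : j ≠ j') : (tst c em j ∩ tst c em j').card ≤ D := by
  obtain ⟨l, hl⟩ : ∃ l, j l ≠ j' l := by
    by_contra h
    push Not at h
    exact hjj (funext h)
  refine le_trans ?_ (hc _ _ hl)
  refine card_le_card_of_injOn (fun p => em p.1) ?_ ?_
  · intro p hp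
    rw [mem_coe, mem_inter] at hp
    have h1 := (mem_filter.1 hp.1).2 l
    have h2 := (mem_filter.1 hp.2).2 l
    rw [mem_coe, mem_filter]
    exact ⟨mem_univ _, h1.symm.trans h2⟩
  · intro p hp p' hp' h
    rw [mem_coe, mem_inter] at hp hp'
    have h1 : p.1 = p'.1 := hem h
    refine Prod.ext h1 (funext fun l' => ?_)
    rw [(mem_filter.1 hp.1).2 l', (mem_filter.1 hp'.1).2 l', h1]

end

theorem mem_map' {α β : Type*} (e : α ↪ β) (s : Finset α) (a : α) : e a ∈ s.map e ↔ a ∈ s := by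
  rw [mem_map]
  constructor
  · rintro ⟨b, hb, hba⟩
    rwa [← e.injective hba]
  · intro h
    exact ⟨a, h, rfl⟩

/-- The main inequality for a data structure. -/
theorem scheme_ineq {κ N S w T m K B Λ r D q : ℕ} [Fact q.Prime] (hκ : 0 < κ) (hm : 0 < m)
    (hmD : m ≤ q ^ D) (hBq : B ≤ q) (hr0 : 0 < r) (hr : r * D ≤ B)
    (g γ y μ : ℝ) (hgγ : g ≤ γ) (hg0 : 0 < g) (hg1 : g ≤ 1 / 2) (hy : 0 ≤ y)
    (hpB : 1 / 2 - g / 4 ≤ ((Λ : ℝ) / (Λ + 1)) ^ B)
    (hp : ((Λ : ℝ) / (Λ + 1)) ^ (B - r * D) ≤ 1 / 2 + g / 9 / 8)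
    (hyr : y + Real.log ((m : ℝ) ^ κ) ≤ (g / 9) ^ 2 / 20 * r) (hμ : 2 * r / (g / 9) ≤ μ)
    (hN : (κ + 1) * m * (B * q ^ κ) ≤ N) (hB0 : 0 < B) (D' : Scheme (κ + 1) N S w T γ)
    (hcov : ∀ a : Fin m → (Fin κ → Fin m) → Alg S w, (∀ i t, (a i t).Within T) →
      Cov a K (g / 4) μ) :
    g / 16 ≤ K * 2 ^ m * Real.exp (-(y * (g / 32 * m))) := by
  classical
  obtain ⟨c, hc⟩ := exists_rs q D m hmD
  have hq0 : 0 < q := (Fact.out : q.Prime).pos
  obtain ⟨em⟩ := Function.Embedding.nonempty_of_card_le (α := Fin B) (β := ZMod q) (by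
    rw [Fintype.card_fin, ZMod.card]
    exact hBq)
  have cJ : Fintype.card (Fin κ → Fin m) = m ^ κ := by
    rw [Fintype.card_fun, Fintype.card_fin, Fintype.card_fin]
  have cU : Fintype.card (Fin B × (Fin κ → ZMod q)) = B * q ^ κ := by
    rw [Fintype.card_prod, Fintype.card_fin, Fintype.card_fun, Fintype.card_fin, ZMod.card]
  have cIx : Fintype.card (Fin m ⊕ (Fin κ × Fin m)) = (κ + 1) * m := by
    rw [Fintype.card_sum, Fintype.card_prod, Fintype.card_fin, Fintype.card_fin]
    ring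
  have hUN : Fintype.card (Fin B × (Fin κ → ZMod q)) ≤ Fintype.card (Fin N) := by
    rw [cU, Fintype.card_fin]
    refine le_trans ?_ hN
    exact Nat.le_mul_of_pos_left _ (by positivity)
  have hIxN : Fintype.card (Fin m ⊕ (Fin κ × Fin m)) ≤ Fintype.card (Fin N) := by
    rw [cIx, Fintype.card_fin]
    refine le_trans ?_ hN
    exact Nat.le_mul_of_pos_right _ (by positivity)
  obtain ⟨el⟩ := Function.Embedding.nonempty_of_card_le hUN
  obtain ⟨idx⟩ := Function.Embedding.nonempty_of_card_le hIxN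
  set G : (Fin m → Fin B × (Fin κ → ZMod q) → Fin (Λ + 1)) → Fin m ⊕ (Fin κ × Fin m) →
      Finset (Fin B × (Fin κ → ZMod q)) := fun x s =>
    match s with
    | Sum.inl v => univ.filter fun p => x v p = 0
    | Sum.inr lu => univ.filter fun p => p.2 lu.1 = c lu.2 (em p.1) with hG
  set qu : Fin m → (Fin κ → Fin m) → Fin (κ + 1) → Fin N := fun v j =>
    Fin.cons (idx (Sum.inl v)) fun l => idx (Sum.inr (l, j l)) with hqu
  have hquinj : ∀ v j, Function.Injective (qu v j) := by
    intro v j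
    rw [hqu]
    refine Fin.cons_injective_iff.2 ⟨?_, ?_⟩
    · rintro ⟨l, hl⟩
      have := idx.injective hl
      exact absurd this (by simp)
    · intro l l' hll
      have := idx.injective hll
      have h2 := Sum.inr_injective this
      exact (Prod.ext_iff.1 h2).1
  have hsize : ∀ x, ∑ n, (fam (G x) idx el n).card ≤ N := by
    intro x
    refine (sum_fam _ _ _).trans ?_
    rw [cIx, cU]
    exact hN
  have hcorr : ∀ (x : Fin m → Fin B × (Fin κ → ZMod q) → Fin (Λ + 1)) v (j : Fin κ → Fin m),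
      (∀ e, ¬ ∀ i, e ∈ fam (G x) idx el (qu v j i)) ↔ ∀ e ∈ tst c em j, x v e ≠ 0 := by
    intro x v j
    have h0' : qu v j 0 = idx (Sum.inl v) := rfl
    have hmem : ∀ p, (∀ i, el p ∈ fam (G x) idx el (qu v j i)) ↔
        x v p = 0 ∧ p ∈ tst c em j := by
      intro p
      constructor
      · intro h
        have h0 := h 0
        rw [h0', fam_idx, mem_map' el] at h0
        refine ⟨(mem_filter.1 h0).2, mem_filter.2 ⟨mem_univ _, fun l => ?_⟩⟩
        have hl := h l.succ
        have hl' : qu v j l.succ = idx (Sum.inr (l, j l)) := by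
          rw [hqu]
          simp
        rw [hl', fam_idx, mem_map' el] at hl
        exact (mem_filter.1 hl).2
      · rintro ⟨h1, h2⟩ i
        refine Fin.cases ?_ (fun l => ?_) i
        · rw [h0', fam_idx, mem_map' el]
          exact mem_filter.2 ⟨mem_univ _, h1⟩
        · have hl' : qu v j l.succ = idx (Sum.inr (l, j l)) := by
            rw [hqu]
            simp
          rw [hl', fam_idx, mem_map' el]
          exact mem_filter.2 ⟨mem_univ _, (mem_filter.1 h2).2 l⟩
    constructor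
    · intro h e he hx
      exact h (el e) ((hmem e).2 ⟨hx, he⟩)
    · intro h e he
      have h0 := he 0
      rw [h0', fam_idx, mem_map] at h0
      obtain ⟨p, -, rfl⟩ := h0
      obtain ⟨h1, h2⟩ := (hmem p).1 he
      exact h p h2 h1
  refine main_ineq (m := m) (Rn := D'.R) (fun j : Fin κ → Fin m => tst c em j) B D Λ r K
    (fun j => tst_card c em j)
    (fun j j' hjj => tst_inter c em em.injective D hc j j' hjj) hm (by rw [cJ]; positivity) D'.pos
    hr0 hr g y μ hg0 hg1 hy hpB hp (by rw [cJ]; exact_mod_cast hyr) hμ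
    (fun ρ x => D'.mem ρ (fam (G x) idx el)) (fun ρ i t => D'.alg ρ (qu i t))
    (fun ρ => hcov _ fun i t => D'.within ρ _) ?_
  intro x i t
  have h1 := D'.correct _ (hsize x) (qu i t) (hquinj i t)
  have h2 : (1 / 2 + g) * (D'.R : ℝ) ≤ (1 / 2 + γ) * D'.R :=
    mul_le_mul_of_nonneg_right (by linarith) (Nat.cast_nonneg _)
  refine (h2.trans h1).trans (le_of_eq ?_)
  congr 2
  ext ρ
  rw [mem_filter, mem_filter, hcorr x i t]

end Pool.Agent.Lib_helper81.KRT
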