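import Mathlib

/-!
# Random samples of the cells
-/

set_option autoImplicit false

namespace Pool.Agent.Lib_helper81.KRT

open Finset

/-- the centred indicator of the class `0` among `P` classes -/
noncomputable def xi {P : ℕ} [NeZero P] (v : Fin P) : ℝ := (if v = 0 then (P : ℝ) else 0) - 1

theorem sum_xi {P : ℕ} [NeZero P] : ∑ v : Fin P, xi v = 0 := by
  unfold xi
  rw [sum_sub_distrib, sum_ite_eq' univ (0 : Fin P), if_pos (mem_univ _)]
  simp

theorem sum_xi_sq {P : ℕ} [NeZero P] : ∑ v : Fin P, xi v ^ 2 ≤ (P : ℝ) * P := by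
  have h1 : ∀ v : Fin P, xi v ^ 2 = (if v = 0 then (P : ℝ) * P - 2 * P else 0) + 1 := by
    intro v
    unfold xi
    by_cases h : v = 0
    · rw [if_pos h, if_pos h]
      ring
    · rw [if_neg h, if_neg h]
      ring
  have hP : (0 : ℝ) ≤ P := Nat.cast_nonneg P
  simp only [h1]
  rw [sum_add_distrib, sum_ite_eq' univ (0 : Fin P), if_pos (mem_univ _)]
  simp
  linarith

variable {S P : ℕ}

/-- the sum of a product over all the functions -/
theorem sum_prod_fun (f : Fin S → Fin P → ℝ) :
    ∑ h : Fin S → Fin P, ∏ c, f c (h c) = ∏ c, ∑ v, f c v := by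
  rw [prod_univ_sum, Fintype.piFinset_univ]

variable [NeZero P]

theorem sum_cross (c c' : Fin S) (hc : c ≠ c') :
    ∑ h : Fin S → Fin P, xi (h c) * xi (h c') = 0 := by
  classical
  have h1 : ∀ h : Fin S → Fin P, xi (h c) * xi (h c') =
      ∏ d, (if d = c then xi (h d) else if d = c' then xi (h d) else 1) := by
    intro h
    rw [← mul_prod_erase univ _ (mem_univ c), if_pos rfl,
      ← mul_prod_erase (univ.erase c) _ (mem_erase.2 ⟨hc.symm, mem_univ c'⟩), if_neg hc.symm,
      if_pos rfl]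
    rw [prod_eq_one, mul_one]
    intro d hd
    rw [mem_erase, mem_erase] at hd
    rw [if_neg hd.2.1, if_neg hd.1]
  simp only [h1]
  rw [sum_prod_fun (fun d v => if d = c then xi v else if d = c' then xi v else 1)]
  refine prod_eq_zero (mem_univ c) ?_
  simp only [if_true]
  exact sum_xi

theorem sum_diag (c : Fin S) :
    ∑ h : Fin S → Fin P, xi (h c) * xi (h c) ≤ (P : ℝ) * P ^ S := by
  classical
  have h1 : ∀ h : Fin S → Fin P, xi (h c) * xi (h c) =
      ∏ d, (if d = c then xi (h d) ^ 2 else 1) := by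
    intro h
    rw [← mul_prod_erase univ _ (mem_univ c), if_pos rfl, prod_eq_one, mul_one, sq]
    intro d hd
    rw [mem_erase] at hd
    rw [if_neg hd.1]
  simp only [h1]
  rw [sum_prod_fun (fun d v => if d = c then xi v ^ 2 else 1),
    ← mul_prod_erase univ _ (mem_univ c)]
  simp only [if_true]
  have h2 : ∏ d ∈ univ.erase c, ∑ v : Fin P, (if d = c then xi v ^ 2 else (1 : ℝ)) =
      (P : ℝ) ^ (S - 1) := by
    rw [prod_congr rfl (g := fun _ => (P : ℝ)) fun d hd => by
      rw [mem_erase] at hd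
      simp [if_neg hd.1]]
    rw [prod_const, card_erase_of_mem (mem_univ c), card_univ, Fintype.card_fin]
  rw [h2]
  have hS : 0 < S := c.pos
  have h3 : (P : ℝ) ^ S = P * (P : ℝ) ^ (S - 1) := by
    rw [← pow_succ']
    congr 1
    omega
  rw [h3, ← mul_assoc]
  exact mul_le_mul_of_nonneg_right sum_xi_sq (by positivity)

/-- the second moment of a random sample -/
theorem second_moment (b : Fin S → ℝ) :
    ∑ h : Fin S → Fin P, (∑ c, b c * xi (h c)) ^ 2 ≤ (P : ℝ) * P ^ S * ∑ c, b c ^ 2 := by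
  have h1 : ∀ h : Fin S → Fin P, (∑ c, b c * xi (h c)) ^ 2 =
      ∑ c, ∑ c', b c * b c' * (xi (h c) * xi (h c')) := by
    intro h
    rw [sq, sum_mul_sum]
    refine sum_congr rfl fun c _ => sum_congr rfl fun c' _ => ?_
    ring
  simp only [h1]
  rw [sum_comm, mul_sum]
  refine sum_le_sum fun c _ => ?_
  rw [sum_comm, ← add_sum_erase univ _ (mem_univ c)]
  have h2 : ∑ c' ∈ univ.erase c, ∑ h : Fin S → Fin P, b c * b c' * (xi (h c) * xi (h c')) = 0 := by
    refine sum_eq_zero fun c' hc' => ?_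
    rw [mem_erase] at hc'
    rw [← mul_sum, sum_cross c c' hc'.1.symm, mul_zero]
  rw [h2, add_zero, ← mul_sum]
  calc b c * b c * ∑ h : Fin S → Fin P, xi (h c) * xi (h c)
      ≤ b c * b c * ((P : ℝ) * P ^ S) :=
        mul_le_mul_of_nonneg_left (sum_diag c) (mul_self_nonneg _)
    _ = _ := by ring

/-- the sampled sum -/
theorem sum_sample (b : Fin S → ℝ) (h : Fin S → Fin P) :
    (P : ℝ) * (∑ c ∈ univ.filter fun c => h c = 0, b c) - ∑ c, b c = ∑ c, b c * xi (h c) := by
  rw [sum_filter, mul_sum, ← sum_sub_distrib]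
  refine sum_congr rfl fun c _ => ?_
  unfold xi
  split_ifs <;> ring

open Classical in
/-- Few samples give less than half of the expected value. -/
theorem light_fail (L : Finset (Fin S)) (b n : Fin S → ℝ) (tot Ψ δ κ T : ℝ) (hT : 0 < T)
    (hδ : 0 < δ) (hκ : 576 * T ≤ κ * δ ^ 2) (htot : 0 < tot)
    (hb : ∀ c, |b c| ≤ 3 * n c) (hL : ∀ c ∈ L, κ * P * n c ≤ tot) (hn : ∑ c ∈ L, n c ≤ tot)
    (hΨ : δ * tot ≤ Ψ) (hs : Ψ / 2 ≤ ∑ c ∈ L, b c) :
    ((univ.filter fun h : Fin S → Fin P =>
      ∑ c ∈ L.filter (fun c => h c = 0), b c < Ψ / (4 * P)).card : ℝ) * (4 * T) ≤ P ^ S := by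
  have hP : (0 : ℝ) < P := by exact_mod_cast Nat.pos_of_ne_zero (NeZero.ne P)
  have hΨ0 : 0 < Ψ := lt_of_lt_of_le (by positivity) hΨ
  have hκ0 : 0 < κ := by
    by_contra h
    have : κ * δ ^ 2 ≤ 0 := mul_nonpos_of_nonpos_of_nonneg (not_lt.1 h) (by positivity)
    nlinarith
  set b' : Fin S → ℝ := fun c => if c ∈ L then b c else 0 with hb'
  have e1 : ∑ c, b' c = ∑ c ∈ L, b c := by
    rw [hb', sum_ite_mem, univ_inter]
  have e2 : ∀ h : Fin S → Fin P, ∑ c ∈ L.filter (fun c => h c = 0), b c =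
      ∑ c ∈ univ.filter (fun c => h c = 0), b' c := by
    intro h
    rw [hb', sum_ite_mem]
    refine sum_congr ?_ fun _ _ => rfl
    ext c
    simp [and_comm]
  have e3 : ∑ c, b' c ^ 2 ≤ 9 * tot ^ 2 / (κ * P) := by
    have h1 : ∑ c, b' c ^ 2 = ∑ c ∈ L, b c ^ 2 := by
      have : ∀ c, b' c ^ 2 = if c ∈ L then b c ^ 2 else 0 := by
        intro c
        rw [hb']
        by_cases h : c ∈ L
        · simp [h]
        · simp [h]
      simp only [this]
      rw [sum_ite_mem, univ_inter]
    rw [h1]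
    have h2 : ∀ c ∈ L, b c ^ 2 ≤ 9 * tot / (κ * P) * n c := by
      intro c hc
      have hn0 : 0 ≤ n c := by
        have := (abs_nonneg _).trans (hb c)
        linarith
      have h3 : b c ^ 2 ≤ (3 * n c) ^ 2 := sq_le_sq' (by linarith [neg_abs_le (b c), hb c])
        ((le_abs_self _).trans (hb c))
      have h4 : n c ≤ tot / (κ * P) := by
        rw [le_div_iff₀ (by positivity)]
        linarith [hL c hc]
      calc b c ^ 2 ≤ (3 * n c) ^ 2 := h3
        _ = 9 * n c * n c := by ring
        _ ≤ 9 * (tot / (κ * P)) * n c := by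
            refine mul_le_mul_of_nonneg_right ?_ hn0
            linarith
        _ = _ := by ring
    calc ∑ c ∈ L, b c ^ 2 ≤ ∑ c ∈ L, 9 * tot / (κ * P) * n c := sum_le_sum h2
      _ = 9 * tot / (κ * P) * ∑ c ∈ L, n c := by rw [mul_sum]
      _ ≤ 9 * tot / (κ * P) * tot := mul_le_mul_of_nonneg_left hn (by positivity)
      _ = _ := by ring
  have e4 := second_moment (P := P) b'
  have e5 : ((univ.filter fun h : Fin S → Fin P =>
      ∑ c ∈ L.filter (fun c => h c = 0), b c < Ψ / (4 * P)).card : ℝ) * (Ψ ^ 2 / 16) ≤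
      ∑ h : Fin S → Fin P, (∑ c, b' c * xi (h c)) ^ 2 := by
    rw [← nsmul_eq_mul, ← sum_const]
    refine (sum_le_sum fun h hh => ?_).trans
      (sum_le_sum_of_subset_of_nonneg (filter_subset _ _) fun _ _ _ => sq_nonneg _)
    rw [mem_filter, e2] at hh
    rw [← sum_sample, e1]
    have h1 := hh.2
    rw [lt_div_iff₀ (by positivity)] at h1
    have h2 : Ψ / 4 ≤ ∑ c ∈ L, b c - P * ∑ c ∈ univ.filter (fun c => h c = 0), b' c := by
      nlinarith
    have h3 : (P * ∑ c ∈ univ.filter (fun c => h c = 0), b' c - ∑ c ∈ L, b c) ^ 2 =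
      (∑ c ∈ L, b c - P * ∑ c ∈ univ.filter (fun c => h c = 0), b' c) ^ 2 := by ring
    rw [h3]
    calc Ψ ^ 2 / 16 = (Ψ / 4) ^ 2 := by ring
      _ ≤ _ := pow_le_pow_left₀ (by positivity) h2 2
  have e6 : (P : ℝ) * P ^ S * ∑ c, b' c ^ 2 ≤ 9 * tot ^ 2 / κ * P ^ S := by
    calc (P : ℝ) * P ^ S * ∑ c, b' c ^ 2 ≤ (P : ℝ) * P ^ S * (9 * tot ^ 2 / (κ * P)) :=
          mul_le_mul_of_nonneg_left e3 (by positivity)
      _ = _ := by field_simp
  set F : ℝ := ((univ.filter fun h : Fin S → Fin P =>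
      ∑ c ∈ L.filter (fun c => h c = 0), b c < Ψ / (4 * P)).card : ℝ) with hF
  have hF0 : 0 ≤ F := Nat.cast_nonneg _
  have e7 : F * (δ ^ 2 * tot ^ 2 / 16) ≤ 9 * tot ^ 2 / κ * P ^ S := by
    refine le_trans (mul_le_mul_of_nonneg_left ?_ hF0) ((e5.trans e4).trans e6)
    have : (δ * tot) ^ 2 ≤ Ψ ^ 2 := pow_le_pow_left₀ (by positivity) hΨ 2
    have h2 : (δ * tot) ^ 2 = δ ^ 2 * tot ^ 2 := by ring
    linarith
  have e8 : F * (κ * δ ^ 2) ≤ 144 * P ^ S := by
    have h1 : F * (δ ^ 2 * tot ^ 2 / 16) * (16 * κ / tot ^ 2) ≤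
        9 * tot ^ 2 / κ * P ^ S * (16 * κ / tot ^ 2) :=
      mul_le_mul_of_nonneg_right e7 (by positivity)
    have h2 : F * (δ ^ 2 * tot ^ 2 / 16) * (16 * κ / tot ^ 2) = F * (κ * δ ^ 2) := by
      field_simp
    have h3 : 9 * tot ^ 2 / κ * P ^ S * (16 * κ / tot ^ 2) = 144 * P ^ S := by
      field_simp
      ring
    rwa [h2, h3] at h1
  have e9 : F * (576 * T) ≤ F * (κ * δ ^ 2) := mul_le_mul_of_nonneg_left hκ hF0
  linarith

/-- the expected size of a sample -/
theorem sum_size : ∑ h : Fin S → Fin P, (P : ℝ) * ((univ.filter fun c => h c = 0).card : ℝ) =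
    S * P ^ S := by
  have h1 : ∀ h : Fin S → Fin P, (P : ℝ) * ((univ.filter fun c => h c = 0).card : ℝ) =
      S + ∑ c, 1 * xi (h c) := by
    intro h
    rw [← sum_sample (fun _ => (1 : ℝ)) h]
    simp
  simp only [h1]
  rw [sum_add_distrib, sum_comm]
  have h2 : ∀ c : Fin S, ∑ h : Fin S → Fin P, 1 * xi (h c) = 0 := by
    classical
    intro c
    have h1 : ∀ h : Fin S → Fin P, 1 * xi (h c) = ∏ d, (if d = c then xi (h d) else 1) := by
      intro h
      rw [← mul_prod_erase univ _ (mem_univ c), if_pos rfl, prod_eq_one, mul_one, one_mul]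
      intro d hd
      rw [mem_erase] at hd
      rw [if_neg hd.1]
    simp only [h1]
    rw [sum_prod_fun (fun d v => if d = c then xi v else 1)]
    refine prod_eq_zero (mem_univ c) ?_
    simp only [if_true]
    exact sum_xi
  rw [sum_eq_zero fun c _ => h2 c, add_zero, sum_const, card_univ, Fintype.card_fun,
    Fintype.card_fin, Fintype.card_fin, nsmul_eq_mul]
  push_cast
  ring

/-- A sample which is small and fails for few rows. -/
theorem exists_sample {m : ℕ} (hS : 0 < S) (I : Finset (Fin m)) (T : ℕ)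
    (fail : Fin m → (Fin S → Fin P) → Prop) [∀ i h, Decidable (fail i h)]
    (h : ∀ i ∈ I, ((univ.filter fun h : Fin S → Fin P => fail i h).card : ℝ) * (4 * T) ≤ P ^ S) :
    ∃ h : Fin S → Fin P, P * (univ.filter fun c => h c = 0).card ≤ 2 * S ∧
      2 * T * (I.filter fun i => fail i h).card ≤ I.card := by
  by_contra hcon
  push Not at hcon
  have hP : (0 : ℝ) < P := by exact_mod_cast Nat.pos_of_ne_zero (NeZero.ne P)
  have hS' : (0 : ℝ) < S := by exact_mod_cast hS
  have hPS : (0 : ℝ) < (P : ℝ) ^ S := by positivity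
  have hc : (univ : Finset (Fin S → Fin P)).Nonempty := univ_nonempty
  rcases Nat.eq_zero_or_pos I.card with hI | hI
  · have h1 : ∀ h : Fin S → Fin P, (2 * S : ℝ) < P * ((univ.filter fun c => h c = 0).card : ℝ) := by
      intro h
      by_contra h2
      have h3 : P * (univ.filter fun c => h c = 0).card ≤ 2 * S := by
        exact_mod_cast not_lt.1 h2
      have h4 := hcon h h3
      rw [card_eq_zero] at hI
      rw [hI] at h4
      simp at h4
    have h2 := sum_lt_sum_of_nonempty hc fun h _ => h1 h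
    rw [sum_size, sum_const, card_univ, Fintype.card_fun, Fintype.card_fin, Fintype.card_fin,
      nsmul_eq_mul] at h2
    push_cast at h2
    nlinarith
  · have hI' : (0 : ℝ) < I.card := by exact_mod_cast hI
    have h1 : ∀ h : Fin S → Fin P, (2 * S * I.card : ℝ) <
        I.card * (P * ((univ.filter fun c => h c = 0).card : ℝ)) +
          2 * S * (2 * T * ((I.filter fun i => fail i h).card : ℝ)) := by
      intro h
      by_cases h2 : P * (univ.filter fun c => h c = 0).card ≤ 2 * S
      · have h3 : (I.card : ℝ) < 2 * T * ((I.filter fun i => fail i h).card : ℝ) := by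
          exact_mod_cast hcon h h2
        have h4 : (0 : ℝ) ≤ I.card * (P * ((univ.filter fun c => h c = 0).card : ℝ)) := by
          positivity
        nlinarith
      · have h3 : (2 * S : ℝ) < P * ((univ.filter fun c => h c = 0).card : ℝ) := by
          exact_mod_cast not_le.1 h2
        have h4 : (0 : ℝ) ≤ 2 * S * (2 * T * ((I.filter fun i => fail i h).card : ℝ)) := by
          positivity
        nlinarith
    have h2 := sum_lt_sum_of_nonempty hc fun h _ => h1 h
    have h5 : ∑ _h : Fin S → Fin P, (2 * S * I.card : ℝ) = 2 * S * I.card * P ^ S := by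
      rw [sum_const, card_univ, Fintype.card_fun, Fintype.card_fin, Fintype.card_fin,
        nsmul_eq_mul]
      push_cast
      ring
    have h6 : ∑ h : Fin S → Fin P, ((I.card : ℝ) *
        (P * ((univ.filter fun c => h c = 0).card : ℝ)) +
          2 * S * (2 * T * ((I.filter fun i => fail i h).card : ℝ))) =
        I.card * (S * P ^ S) + 2 * S * (2 * T *
          ∑ h : Fin S → Fin P, ((I.filter fun i => fail i h).card : ℝ)) := by
      rw [← sum_size, mul_sum, mul_sum, mul_sum, ← sum_add_distrib]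
    rw [h5, h6] at h2
    have h3 : ∑ h : Fin S → Fin P, ((I.filter fun i => fail i h).card : ℝ) =
        ∑ i ∈ I, ((univ.filter fun h : Fin S → Fin P => fail i h).card : ℝ) := by
      have e1 : ∀ h : Fin S → Fin P, ((I.filter fun i => fail i h).card : ℝ) =
          ∑ i ∈ I, if fail i h then (1 : ℝ) else 0 := by
        intro h
        rw [sum_boole]
      have e2 : ∀ i, ((univ.filter fun h : Fin S → Fin P => fail i h).card : ℝ) =
          ∑ h, if fail i h then (1 : ℝ) else 0 := by
        intro i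
        rw [sum_boole]
      simp only [e1, e2]
      rw [sum_comm]
    have h4 : 4 * T * ∑ i ∈ I, ((univ.filter fun h : Fin S → Fin P => fail i h).card : ℝ) ≤
        I.card * (P : ℝ) ^ S := by
      rw [mul_sum, ← nsmul_eq_mul, ← sum_const]
      refine sum_le_sum fun i hi => ?_
      have := h i hi
      linarith
    rw [h3] at h2
    nlinarith

end Pool.Agent.Lib_helper81.KRT
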