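import Pool.Agent.Lib_helper81.KSW.Scheme
import Pool.Agent.Lib_helper81.KRT.Sample

/-!
# Cell sampling level by level for a signed potential
-/

set_option autoImplicit false

namespace Pool.Agent.Lib_helper81.KRT

open Finset
open Pool.Agent.Lib_helper81.KSW (Alg)

variable {S w : ℕ}

/-- the address of the next probe (`c0` for an answer) -/
def hd (c0 : Fin S) : Alg S w → Fin S
  | .answer _ => c0
  | .probe c _ => c

/-- the algorithm after a probe with the content `v` -/
def nx : Alg S w → Fin (2 ^ w) → Alg S w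
  | .answer b, _ => .answer b
  | .probe _ next, v => next v

theorem run_nx (c0 : Fin S) (M : Fin S → Fin (2 ^ w)) (a : Alg S w) :
    (nx a (M (hd c0 a))).run M = a.run M := by
  cases a <;> rfl

theorem within_nx {T : ℕ} (a : Alg S w) (h : a.Within (T + 1)) (v : Fin (2 ^ w)) :
    (nx a v).Within T := by
  cases a with
  | answer b => cases T <;> trivial
  | probe c next => exact h v

/-! ### the known cells -/

section Pm

open Classical

/-- put the content of a cell -/
noncomputable def put (K : Fin S → Option (Fin (2 ^ w))) (o : Option (Fin S × Fin (2 ^ w))) :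
    Fin S → Option (Fin (2 ^ w)) :=
  match o with
  | none => K
  | some cv => Function.update K cv.1 (some cv.2)

/-- memories with at most `n` known cells -/
noncomputable def pm (S w : ℕ) : ℕ → Finset (Fin S → Option (Fin (2 ^ w)))
  | 0 => {fun _ => none}
  | n + 1 => (pm S w n ×ˢ (univ : Finset (Option (Fin S × Fin (2 ^ w))))).image
      fun p => put p.1 p.2

theorem card_pm (n : ℕ) : (pm S w n).card ≤ (S * 2 ^ w + 1) ^ n := by
  induction n with
  | zero => simp [pm]
  | succ n ih =>
    rw [pm]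
    refine card_image_le.trans ?_
    rw [card_product, card_univ, Fintype.card_option, Fintype.card_prod, Fintype.card_fin,
      Fintype.card_fin, pow_succ]
    exact Nat.mul_le_mul_right _ ih

theorem mem_pm (M : Fin S → Fin (2 ^ w)) (n : ℕ) : ∀ A : Finset (Fin S), A.card ≤ n →
    (fun c => if c ∈ A then some (M c) else none) ∈ pm S w n := by
  induction n with
  | zero =>
    intro A hA
    rw [card_eq_zero.1 (Nat.le_zero.1 hA)]
    simp [pm]
  | succ n ih =>
    intro A hA
    rw [pm, mem_image]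
    rcases A.eq_empty_or_nonempty with rfl | ⟨c, hc⟩
    · exact ⟨(_, none), mem_product.2 ⟨ih ∅ (by simp), mem_univ _⟩, rfl⟩
    · refine ⟨(_, some (c, M c)), mem_product.2 ⟨ih (A.erase c) ?_, mem_univ _⟩, ?_⟩
      · rw [card_erase_of_mem hc]
        omega
      · funext d
        change Function.update (fun e => if e ∈ A.erase c then some (M e) else none) c
          (some (M c)) d = _
        by_cases hd : d = c
        · subst hd
          rw [Function.update_self, if_pos hc]
        · rw [Function.update_of_ne hd]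
          simp [hd]

end Pm

section Step

variable {J : Type} [DecidableEq J]

/-- the number of tests with next address `c` -/
def cnt (c0 : Fin S) (a : J → Alg S w) (R : Finset J) (c : Fin S) : ℕ :=
  (R.filter fun t => hd c0 (a t) = c).card

/-- the known cells of a row: a private cell or the light cells of the sample -/
def kn (c0 : Fin S) (κ P : ℕ) (a : J → Alg S w) (R : Finset J)
    (G : Fin S → Option (Fin (2 ^ w))) (pv : Option (Fin S × Fin (2 ^ w))) (c : Fin S) :
    Option (Fin (2 ^ w)) :=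
  match pv with
  | some cv => if c = cv.1 then some cv.2 else none
  | none => if κ * P * cnt c0 a R c < R.card then G c else none

/-- the tests whose next probe is known -/
def nR (c0 : Fin S) (K : Fin S → Option (Fin (2 ^ w))) (a : J → Alg S w) (R : Finset J) :
    Finset J :=
  R.filter fun t => (K (hd c0 (a t))).isSome

/-- the algorithms after the next probe -/
def nA (c0 : Fin S) (K : Fin S → Option (Fin (2 ^ w))) (a : J → Alg S w) (t : J) : Alg S w :=
  nx (a t) ((K (hd c0 (a t))).getD ⟨0, by positivity⟩)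

omit [DecidableEq J] in
theorem sum_cnt (c0 : Fin S) (a : J → Alg S w) (R : Finset J) (H : Finset (Fin S)) :
    ∑ c ∈ H, cnt c0 a R c ≤ R.card := by
  calc ∑ c ∈ H, cnt c0 a R c ≤ ∑ c, cnt c0 a R c :=
        sum_le_sum_of_subset (subset_univ _)
    _ = R.card := (card_eq_sum_card_fiberwise fun _ _ => mem_univ _).symm

omit [DecidableEq J] in
theorem row_heavy (c0 : Fin S) (κ P : ℕ) (hκ : 0 < κ) (hP : 0 < P) (a : J → Alg S w)
    (R : Finset J) (ψ : J → ℝ) (Ψ : ℝ) (hΨ : 0 < Ψ)
    (h : Ψ / 2 ≤ ∑ c ∈ univ.filter (fun c => R.card ≤ κ * P * cnt c0 a R c),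
      ∑ t ∈ R.filter (fun t => hd c0 (a t) = c), ψ t) :
    ∃ c, Ψ / (2 * κ * P) ≤ ∑ t ∈ R.filter (fun t => hd c0 (a t) = c), ψ t := by
  by_contra hcon
  push Not at hcon
  have hκ' : (0 : ℝ) < κ := by exact_mod_cast hκ
  have hP' : (0 : ℝ) < P := by exact_mod_cast hP
  set H := univ.filter (fun c => R.card ≤ κ * P * cnt c0 a R c) with hH
  rcases Nat.eq_zero_or_pos R.card with hR | hR
  · rw [card_eq_zero] at hR
    rw [hR] at h
    simp at h
    linarith
  rcases H.eq_empty_or_nonempty with hE | hE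
  · rw [hE, sum_empty] at h
    linarith
  have h1 := sum_lt_sum_of_nonempty hE fun c _ => hcon c
  rw [sum_const, nsmul_eq_mul] at h1
  have h2 : H.card * R.card ≤ κ * P * R.card := by
    calc H.card * R.card = ∑ _c ∈ H, R.card := by rw [sum_const, smul_eq_mul]
      _ ≤ ∑ c ∈ H, κ * P * cnt c0 a R c := sum_le_sum fun c hc => (mem_filter.1 hc).2
      _ = κ * P * ∑ c ∈ H, cnt c0 a R c := by rw [mul_sum]
      _ ≤ κ * P * R.card := Nat.mul_le_mul_left _ (sum_cnt c0 a R H)
  have h3 : H.card ≤ κ * P := Nat.le_of_mul_le_mul_right h2 hR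
  have h4 : (H.card : ℝ) ≤ κ * P := by exact_mod_cast h3
  have h5 : (H.card : ℝ) * (Ψ / (2 * κ * P)) ≤ κ * P * (Ψ / (2 * κ * P)) :=
    mul_le_mul_of_nonneg_right h4 (by positivity)
  have h6 : (κ : ℝ) * P * (Ψ / (2 * κ * P)) = Ψ / 2 := by
    field_simp
  linarith

open Classical in
/-- One level: a small sample, and for most rows the sample or a private cell keeps the signed
measure. -/
theorem step {m : ℕ} (hS : 0 < S) (c0 : Fin S) (κ P T n₀ : ℕ) [NeZero P] (hT : 0 < T)
    (hκ0 : 0 < κ) (hn₀ : 2 * S / P ≤ n₀)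
    (θ δ : ℝ) (hθ0 : 0 ≤ θ) (hθ1 : θ ≤ 1) (hδ : 0 < δ) (hκ : 576 * (T : ℝ) ≤ κ * δ ^ 2)
    (a : Fin m → J → Alg S w) (R : Fin m → Finset J) (M : Fin S → Fin (2 ^ w))
    (s : Fin m → J → ℝ) (hs : ∀ i t, |s i t| ≤ 2) (I : Finset (Fin m)) (μ : ℝ) (hμ : 0 < μ)
    (hI : ∀ i ∈ I, μ ≤ ∑ t ∈ R i, (s i t - (θ + δ))) :
    ∃ G ∈ pm S w n₀, ∃ pv : Fin m → Option (Fin S × Fin (2 ^ w)), ∃ I₁ ⊆ I,
      2 * T * (I \ I₁).card ≤ I.card ∧ ∀ i ∈ I₁,
        (∀ c v, kn c0 κ P (a i) (R i) G (pv i) c = some v → M c = v) ∧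
        μ / (4 * κ * P) ≤ ∑ t ∈ nR c0 (kn c0 κ P (a i) (R i) G (pv i)) (a i) (R i),
          (s i t - θ) := by
  have hP : 0 < P := Nat.pos_of_ne_zero (NeZero.ne P)
  have hP' : (0 : ℝ) < P := by exact_mod_cast hP
  have hκ' : (0 : ℝ) < κ := by exact_mod_cast hκ0
  have hκ1 : (1 : ℝ) ≤ κ := by exact_mod_cast hκ0
  have hT' : (0 : ℝ) < T := by exact_mod_cast hT
  set Ψ : Fin m → ℝ := fun i => ∑ t ∈ R i, (s i t - θ) with hΨ
  set b : Fin m → Fin S → ℝ := fun i c =>
    ∑ t ∈ (R i).filter (fun t => hd c0 (a i t) = c), (s i t - θ) with hb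
  set H : Fin m → Finset (Fin S) := fun i =>
    univ.filter (fun c => (R i).card ≤ κ * P * cnt c0 (a i) (R i) c) with hH
  set L : Fin m → Finset (Fin S) := fun i =>
    univ.filter (fun c => ¬ (R i).card ≤ κ * P * cnt c0 (a i) (R i) c) with hL
  have hΨi : ∀ i ∈ I, μ + δ * (R i).card ≤ Ψ i := by
    intro i hi
    have h1 := hI i hi
    have h2 : ∑ t ∈ R i, (s i t - (θ + δ)) = Ψ i - δ * (R i).card := by
      rw [hΨ]
      simp only [← sub_sub]
      rw [sum_sub_distrib (fun t => s i t - θ), sum_const, nsmul_eq_mul]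
      ring
    linarith
  have hsum : ∀ i, ∑ c ∈ H i, b i c + ∑ c ∈ L i, b i c = Ψ i := by
    intro i
    rw [hH, hL, sum_filter_add_sum_filter_not]
    exact sum_fiberwise _ _ _
  have hbn : ∀ i c, |b i c| ≤ 3 * (cnt c0 (a i) (R i) c : ℝ) := by
    intro i c
    refine (abs_sum_le_sum_abs _ _).trans ?_
    calc ∑ t ∈ (R i).filter (fun t => hd c0 (a i t) = c), |s i t - θ|
        ≤ ∑ t ∈ (R i).filter (fun t => hd c0 (a i t) = c), (3 : ℝ) := by
          refine sum_le_sum fun t _ => ?_
          have h1 := abs_le.1 (hs i t)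
          rw [abs_le]
          constructor <;> linarith
      _ = _ := by rw [sum_const, nsmul_eq_mul, cnt]; ring
  set hv : Fin m → Prop := fun i => Ψ i / 2 ≤ ∑ c ∈ H i, b i c with hhv
  have hlight : ∀ i, ¬ hv i → Ψ i / 2 ≤ ∑ c ∈ L i, b i c := by
    intro i hi
    have h1 := hsum i
    have h2 := not_le.1 hi
    linarith
  have hR0 : ∀ i ∈ I, (0 : ℝ) < (R i).card := by
    intro i hi
    have h1 := hI i hi
    rcases Nat.eq_zero_or_pos (R i).card with h | h
    · rw [card_eq_zero.1 h, sum_empty] at h1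
      linarith
    · exact_mod_cast h
  obtain ⟨h, hh1, hh2⟩ := exists_sample (P := P) hS I T
    (fun i h => ¬ hv i ∧ ∑ c ∈ (L i).filter (fun c => h c = 0), b i c < Ψ i / (4 * P)) (by
      intro i hi
      by_cases hvi : hv i
      · rw [filter_false_of_mem (fun _ _ hc => hc.1 hvi)]
        simp
      · have h1 := light_fail (P := P) (L i) (b i) (fun c => (cnt c0 (a i) (R i) c : ℝ))
          (R i).card (Ψ i) δ κ T hT' hδ hκ (hR0 i hi) (hbn i) (by
            intro c hc
            have h2 := (mem_filter.1 hc).2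
            rw [not_le] at h2
            have h3 : κ * P * cnt c0 (a i) (R i) c ≤ (R i).card := h2.le
            exact_mod_cast h3) (by
            have h2 := sum_cnt c0 (a i) (R i) (L i)
            exact_mod_cast h2) (by
            have := hΨi i hi
            linarith) (hlight i hvi)
        refine le_trans (mul_le_mul_of_nonneg_right ?_ (by positivity)) h1
        have h2 : (univ.filter fun h : Fin S → Fin P => ¬ hv i ∧
            ∑ c ∈ (L i).filter (fun c => h c = 0), b i c < Ψ i / (4 * P)).card ≤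
            (univ.filter fun h : Fin S → Fin P =>
              ∑ c ∈ (L i).filter (fun c => h c = 0), b i c < Ψ i / (4 * P)).card := by
          refine card_le_card fun h hh => ?_
          rw [mem_filter] at hh ⊢
          exact ⟨hh.1, hh.2.2⟩
        exact_mod_cast h2)
  have hheavy : ∀ i ∈ I, hv i → ∃ c, Ψ i / (2 * κ * P) ≤ b i c := fun i hi hvi =>
    row_heavy c0 κ P hκ0 hP (a i) (R i) (fun t => s i t - θ) (Ψ i) (by
      have := hΨi i hi
      have h2 : 0 ≤ δ * (R i).card := mul_nonneg hδ.le (Nat.cast_nonneg _)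
      linarith) hvi
  have : Nonempty (Fin S) := ⟨c0⟩
  choose! cc hcc using hheavy
  refine ⟨fun c => if c ∈ univ.filter (fun c => h c = 0) then some (M c) else none,
    mem_pm M n₀ _ ?_, fun i => if hv i then some (cc i, M (cc i)) else none,
    I.filter (fun i => ¬ (¬ hv i ∧ ∑ c ∈ (L i).filter (fun c => h c = 0), b i c <
      Ψ i / (4 * P))), filter_subset _ _, ?_, ?_⟩
  · refine le_trans ?_ hn₀
    rw [Nat.le_div_iff_mul_le hP, mul_comm]
    exact hh1
  · refine le_trans (Nat.mul_le_mul_left _ (card_le_card fun i hi => ?_)) hh2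
    rw [mem_sdiff, mem_filter, not_and, not_not] at hi
    rw [mem_filter]
    exact ⟨hi.1, hi.2 hi.1⟩
  · intro i hi
    rw [mem_filter] at hi
    obtain ⟨hi, hnf⟩ := hi
    have hΨ1 : μ ≤ Ψ i := by
      have := hΨi i hi
      have h2 : 0 ≤ δ * (R i).card := mul_nonneg hδ.le (Nat.cast_nonneg _)
      linarith
    beta_reduce
    by_cases hvi : hv i
    · rw [if_pos hvi]
      constructor
      · intro c v hc
        unfold kn at hc
        simp only at hc
        by_cases h1 : c = cc i
        · rw [if_pos h1] at hc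
          rw [h1]
          exact Option.some_injective _ hc
        · rw [if_neg h1] at hc
          exact absurd hc (by simp)
      · have h1 : nR c0 (kn c0 κ P (a i) (R i)
            (fun c => if c ∈ univ.filter (fun c => h c = 0) then some (M c) else none)
            (some (cc i, M (cc i)))) (a i) (R i) =
            (R i).filter (fun t => hd c0 (a i t) = cc i) := by
          unfold nR kn
          refine filter_congr fun t _ => ?_
          simp only
          by_cases h2 : hd c0 (a i t) = cc i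
          · simp [h2]
          · simp [h2]
        rw [h1]
        refine le_trans ?_ (hcc i hi hvi)
        calc μ / (4 * κ * P) ≤ μ / (2 * κ * P) := by
              refine div_le_div_of_nonneg_left hμ.le (by positivity) ?_
              have : (0 : ℝ) < κ * P := by positivity
              linarith
          _ ≤ Ψ i / (2 * κ * P) := div_le_div_of_nonneg_right hΨ1 (by positivity)
    · rw [if_neg hvi]
      constructor
      · intro c v hc
        unfold kn at hc
        simp only at hc
        split_ifs at hc with h1 h2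
        exact Option.some_injective _ hc
      · have h1 : nR c0 (kn c0 κ P (a i) (R i)
            (fun c => if c ∈ univ.filter (fun c => h c = 0) then some (M c) else none)
            none) (a i) (R i) =
            (R i).filter (fun t => hd c0 (a i t) ∈ (L i).filter (fun c => h c = 0)) := by
          unfold nR kn
          refine filter_congr fun t _ => ?_
          simp only
          by_cases h2 : κ * P * cnt c0 (a i) (R i) (hd c0 (a i t)) < (R i).card
          · by_cases h3 : h (hd c0 (a i t)) = 0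
            · simp [hL, h2, h3]
            · simp [h2, h3]
          · simp [hL, h2]
        rw [h1]
        have h2 : ∑ t ∈ (R i).filter (fun t => hd c0 (a i t) ∈ (L i).filter (fun c => h c = 0)),
            (s i t - θ) = ∑ c ∈ (L i).filter (fun c => h c = 0), b i c := by
          rw [← sum_fiberwise_of_maps_to (g := fun t => hd c0 (a i t))
            (t := (L i).filter (fun c => h c = 0)) (fun t ht => (mem_filter.1 ht).2)]
          refine sum_congr rfl fun c hc => ?_
          rw [hb]
          refine sum_congr ?_ fun _ _ => rfl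
          ext t
          simp only [mem_filter]
          constructor
          · rintro ⟨⟨h3, -⟩, h4⟩
            exact ⟨h3, h4⟩
          · rintro ⟨h3, h4⟩
            rw [h4]
            exact ⟨⟨h3, mem_filter.1 hc⟩, rfl⟩
        rw [h2]
        have h3 : Ψ i / (4 * P) ≤ ∑ c ∈ (L i).filter (fun c => h c = 0), b i c := by
          by_contra h4
          exact hnf ⟨hvi, not_le.1 h4⟩
        refine le_trans ?_ h3
        calc μ / (4 * κ * P) ≤ μ / (4 * P) := by
              refine div_le_div_of_nonneg_left hμ.le (by positivity) ?_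
              nlinarith
          _ ≤ Ψ i / (4 * P) := div_le_div_of_nonneg_right hΨ1 (by positivity)

open Classical in
/-- All the levels. -/
theorem levels {m : ℕ} (hS : 0 < S) (c0 : Fin S) (κ P T n₀ : ℕ) [NeZero P] (hT : 0 < T)
    (hκ0 : 0 < κ) (hn₀ : 2 * S / P ≤ n₀) (δ : ℝ) (hδ : 0 < δ) (hδ1 : T * δ ≤ 1)
    (hκ : 576 * (T : ℝ) ≤ κ * δ ^ 2) (T' : ℕ) : T' ≤ T →
    ∀ (a : Fin m → J → Alg S w) (R : Fin m → Finset J), (∀ i t, (a i t).Within T') →
    ∃ 𝓕 : Finset (Fin m → Finset J), 𝓕.card ≤ ((S * 2 ^ w + 1) ^ (n₀ + m)) ^ T' ∧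
      ∀ (M : Fin S → Fin (2 ^ w)) (s : Fin m → J → ℝ), (∀ i t, |s i t| ≤ 2) →
      ∀ (I : Finset (Fin m)) (μ : ℝ), 0 < μ →
      (∀ i ∈ I, ∀ t ∈ R i, (a i t).run M = false → s i t = 0) →
      (∀ i ∈ I, μ ≤ ∑ t ∈ R i, (s i t - T' * δ)) →
      ∃ D ∈ 𝓕, ∃ I' ⊆ I, 2 * T * (I \ I').card ≤ T' * I.card ∧ ∀ i ∈ I',
        (∀ t ∈ D i, t ∈ R i ∧ (a i t).run M = true) ∧
        μ / (4 * κ * P) ^ T' ≤ ∑ t ∈ D i, s i t := by
  induction T' with
  | zero =>
    intro _ a R ha
    refine ⟨{fun i => (R i).filter fun t => (a i t).run (fun _ => ⟨0, by positivity⟩) = true},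
      by simp, ?_⟩
    intro M s _ I μ hμ hrun hI
    refine ⟨_, mem_singleton_self _, I, Subset.rfl, by simp, fun i hi => ?_⟩
    have hr : ∀ t, ∀ M' : Fin S → Fin (2 ^ w), (a i t).run M' = (a i t).run M := by
      intro t M'
      have h1 := ha i t
      cases hat : a i t with
      | answer b => rfl
      | probe c next =>
        rw [hat] at h1
        exact absurd h1 id
    constructor
    · intro t ht
      rw [mem_filter, hr] at ht
      exact ht
    · have h1 := hI i hi
      rw [pow_zero, div_one]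
      have h2 : ∑ t ∈ R i, (s i t - (0 : ℕ) * δ) = ∑ t ∈ R i, s i t := by
        simp
      rw [h2] at h1
      refine h1.trans (le_of_eq ?_)
      rw [sum_filter]
      refine sum_congr rfl fun t ht => ?_
      rw [hr]
      by_cases h3 : (a i t).run M = true
      · rw [if_pos h3]
      · rw [if_neg h3]
        exact hrun i hi t ht (by simpa using h3)
  | succ T' ih =>
    intro hT' a R ha
    -- the families after one level
    have h1 : ∀ (G : Fin S → Option (Fin (2 ^ w))) (pv : Fin m → Option (Fin S × Fin (2 ^ w))),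
        ∃ 𝓕 : Finset (Fin m → Finset J), 𝓕.card ≤ ((S * 2 ^ w + 1) ^ (n₀ + m)) ^ T' ∧
      ∀ (M : Fin S → Fin (2 ^ w)) (s : Fin m → J → ℝ), (∀ i t, |s i t| ≤ 2) →
      ∀ (I : Finset (Fin m)) (μ : ℝ), 0 < μ →
      (∀ i ∈ I, ∀ t ∈ nR c0 (kn c0 κ P (a i) (R i) G (pv i)) (a i) (R i),
        (nA c0 (kn c0 κ P (a i) (R i) G (pv i)) (a i) t).run M = false → s i t = 0) →
      (∀ i ∈ I, μ ≤ ∑ t ∈ nR c0 (kn c0 κ P (a i) (R i) G (pv i)) (a i) (R i),
        (s i t - T' * δ)) →
      ∃ D ∈ 𝓕, ∃ I' ⊆ I, 2 * T * (I \ I').card ≤ T' * I.card ∧ ∀ i ∈ I',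
        (∀ t ∈ D i, t ∈ nR c0 (kn c0 κ P (a i) (R i) G (pv i)) (a i) (R i) ∧
          (nA c0 (kn c0 κ P (a i) (R i) G (pv i)) (a i) t).run M = true) ∧
        μ / (4 * κ * P) ^ T' ≤ ∑ t ∈ D i, s i t := by
      intro G pv
      exact ih (by omega) (fun i => nA c0 (kn c0 κ P (a i) (R i) G (pv i)) (a i))
        (fun i => nR c0 (kn c0 κ P (a i) (R i) G (pv i)) (a i) (R i))
        (fun i t => within_nx _ (ha i t) _)
    choose 𝓕 h𝓕1 h𝓕2 using h1
    refine ⟨(pm S w n₀ ×ˢ (univ : Finset (Fin m → Option (Fin S × Fin (2 ^ w))))).biUnion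
      fun p => 𝓕 p.1 p.2, ?_, ?_⟩
    · refine card_biUnion_le.trans ((sum_le_sum fun p _ => h𝓕1 p.1 p.2).trans ?_)
      rw [sum_const, smul_eq_mul, pow_succ, mul_comm]
      refine Nat.mul_le_mul_left _ ?_
      rw [card_product, card_univ, Fintype.card_fun, Fintype.card_option, Fintype.card_prod,
        Fintype.card_fin, Fintype.card_fin, Fintype.card_fin, pow_add]
      exact Nat.mul_le_mul_right _ (card_pm n₀)
    · intro M s hs I μ hμ hrun hI
      have hT'1 : ((T' : ℝ) + 1) * δ ≤ 1 := by
        refine le_trans (mul_le_mul_of_nonneg_right ?_ hδ.le) hδ1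
        exact_mod_cast hT'
      obtain ⟨G, hG, pv, I₁, hI₁, hcard, hrow⟩ := step hS c0 κ P T n₀ hT hκ0 hn₀ (T' * δ) δ
        (by positivity) (by nlinarith) hδ hκ a R M s hs I μ hμ (by
          intro i hi
          have h2 := hI i hi
          push_cast at h2
          have h3 : ((T' : ℝ) + 1) * δ = T' * δ + δ := by ring
          rw [h3] at h2
          exact h2)
      -- the new algorithms are right on the resolved tests
      have hcons : ∀ i ∈ I₁, ∀ t ∈ nR c0 (kn c0 κ P (a i) (R i) G (pv i)) (a i) (R i),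
          t ∈ R i ∧ (nA c0 (kn c0 κ P (a i) (R i) G (pv i)) (a i) t).run M =
            (a i t).run M := by
        intro i hi t ht
        unfold nR at ht
        rw [mem_filter] at ht
        refine ⟨ht.1, ?_⟩
        obtain ⟨v, hv⟩ := Option.isSome_iff_exists.1 ht.2
        unfold nA
        rw [hv, Option.getD_some, ← (hrow i hi).1 _ _ hv]
        exact run_nx c0 M (a i t)
      have hP : 0 < P := Nat.pos_of_ne_zero (NeZero.ne P)
      have hP' : (0 : ℝ) < P := by exact_mod_cast hP
      have hκ' : (0 : ℝ) < κ := by exact_mod_cast hκ0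
      obtain ⟨D, hD, I', hI', hcard', hrow'⟩ := h𝓕2 G pv M s hs I₁ (μ / (4 * κ * P))
        (by positivity) (by
          intro i hi t ht hf
          obtain ⟨h3, h4⟩ := hcons i hi t ht
          rw [h4] at hf
          exact hrun i (hI₁ hi) t h3 hf) (fun i hi => (hrow i hi).2)
      refine ⟨D, mem_biUnion.2 ⟨(G, pv), mem_product.2 ⟨hG, mem_univ _⟩, hD⟩, I',
        hI'.trans hI₁, ?_, fun i hi => ⟨fun t ht => ?_, ?_⟩⟩
      · have h3 : (I \ I').card ≤ (I \ I₁).card + (I₁ \ I').card := by
          refine (card_le_card fun i hi => ?_).trans (card_union_le _ _)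
          rw [mem_sdiff] at hi
          rw [mem_union, mem_sdiff, mem_sdiff]
          by_cases h4 : i ∈ I₁
          · exact Or.inr ⟨h4, hi.2⟩
          · exact Or.inl ⟨hi.1, h4⟩
        have h4 : I₁.card ≤ I.card := card_le_card hI₁
        calc 2 * T * (I \ I').card ≤ 2 * T * ((I \ I₁).card + (I₁ \ I').card) :=
              Nat.mul_le_mul_left _ h3
          _ = 2 * T * (I \ I₁).card + 2 * T * (I₁ \ I').card := by ring
          _ ≤ I.card + T' * I₁.card := Nat.add_le_add hcard hcard'
          _ ≤ I.card + T' * I.card := Nat.add_le_add_left (Nat.mul_le_mul_left _ h4) _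
          _ = (T' + 1) * I.card := by ring
      · obtain ⟨h3, h4⟩ := (hrow' i hi).1 t ht
        obtain ⟨h5, h6⟩ := hcons i (hI' hi) t h3
        exact ⟨h5, h6 ▸ h4⟩
      · refine le_trans (le_of_eq ?_) (hrow' i hi).2
        rw [pow_succ, mul_comm ((4 * (κ : ℝ) * P) ^ T'), div_mul_eq_div_div]

end Step

end Pool.Agent.Lib_helper81.KRT
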